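import Mathlib

/-!
Two algebraic lemmas: splitting of functions over the faces of a tetrahedron, and the vanishing of
a local, periodic-annihilating functional with a dilation relation.
-/

namespace Pool.Agent.Helper455.NV

/-- Functions on the line. -/
abbrev Bt : Type := ℝ → ℤ

/-- The effect of a conjugation. -/
def cob (t : ℝ) (κ : Bt) : Bt := fun k => κ k - κ (k + t)

/-- Dilation. -/
noncomputable def dilB (c : ℝ) (β : Bt) : Bt := fun k => β (k / c)

lemma cob_add (t : ℝ) (κ κ' : Bt) : cob t (κ + κ') = cob t κ + cob t κ' := by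
  funext k
  simp only [cob, Pi.add_apply]
  ring

lemma cob_zero (κ : Bt) : cob 0 κ = 0 := by
  funext k
  simp [cob]

lemma cob_dilB {c : ℝ} (hc : 0 < c) (t : ℝ) (κ : Bt) :
    cob (c * t) (dilB c κ) = dilB c (cob t κ) := by
  funext k
  simp only [cob, dilB]
  congr 2
  field_simp

lemma dilB_zero (c : ℝ) : dilB c 0 = 0 := rfl

lemma dilB_dilB_inv {c : ℝ} (hc : 0 < c) (κ : Bt) : dilB c (dilB c⁻¹ κ) = κ := by
  funext k
  simp only [dilB]
  congr 1
  field_simp

section Split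

variable {F1 F2 F3 F4 : Bt → Bt → Bt → ℝ} {de dr dp : Bt → Bt}

/-- Splitting. -/
theorem split_lemma
    (law : ∀ e p q r s f, F1 e r p + F2 p f q = F3 e s q + F4 r f s)
    (c1 : ∀ κ e r p, F1 (e + de κ) (r + dr κ) (p + dp κ) = F1 e r p) :
    (∀ κ, F1 (de κ) 0 0 - F1 0 0 0 = F3 (de κ) 0 0 - F3 0 0 0) ∧
    (∀ κ, (F3 (de κ) 0 0 - F3 0 0 0) + (F4 (dr κ) 0 0 - F4 0 0 0) =
      F2 (dp κ) 0 0 - F2 0 0 0) ∧
    (∀ κ p, F2 (p + dp κ) 0 0 - F2 p 0 0 = F2 (dp κ) 0 0 - F2 0 0 0) := by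
  have S : ∀ κ e r p, (F3 (e + de κ) 0 0 - F3 e 0 0) + (F4 (r + dr κ) 0 0 - F4 r 0 0) -
      (F2 (p + dp κ) 0 0 - F2 p 0 0) = 0 := by
    intro κ e r p
    have h1 := law (e + de κ) (p + dp κ) 0 (r + dr κ) 0 0
    have h2 := law e p 0 r 0 0
    have h3 := c1 κ e r p
    linarith
  refine ⟨fun κ => ?_, fun κ => ?_, fun κ p => ?_⟩
  · have h1 := law (de κ) 0 0 0 0 0
    have h2 := law 0 0 0 0 0 0
    linarith
  · have h := S κ 0 0 0
    rw [zero_add, zero_add, zero_add] at h
    linarith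
  · have h := S κ 0 0 0
    have h' := S κ 0 0 p
    rw [zero_add, zero_add, zero_add] at h
    rw [zero_add, zero_add] at h'
    linarith

end Split

open Classical in
/-- Unit mass. -/
noncomputable def dl (k : ℝ) : Bt := fun j => if j = k then 1 else 0

lemma dilB_dl {c : ℝ} (hc : 0 < c) (k : ℝ) : dilB c (dl k) = dl (c * k) := by
  funext j
  simp only [dilB, dl]
  congr 1
  rw [div_eq_iff hc.ne', mul_comm]

theorem vanish (v : Bt →+ ℝ) (K : Finset ℝ) (hK : ∀ κ : Bt, (∀ k ∈ K, κ k = 0) → v κ = 0)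
    (hper : ∀ κ : Bt, (∀ k, κ (k + 1) = κ k) → v κ = 0)
    {μ1 μ2 u1 u2 : ℝ} (h1 : 0 < μ1) (h1' : μ1 < 1) (h2 : 0 < μ2) (h2' : μ2 < 1)
    (hu1 : 0 < u1) (hu2 : u1 < u2)
    (hrel : ∀ κ : Bt, v (dilB u1 κ) - v (dilB μ1⁻¹ (dilB u1 κ)) =
      v (dilB u2 κ) - v (dilB μ2⁻¹ (dilB u2 κ))) (κ : Bt) : v κ = 0 := by
  classical
  have hu2' : 0 < u2 := hu1.trans hu2
  -- the unit masses away from the origin
  have hS : ∀ k : ℝ, k ≠ 0 → v (dl k) = 0 := by
    by_contra hcon
    push Not at hcon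
    obtain ⟨k0, hk0, hk0'⟩ := hcon
    have hmemK : ∀ k, v (dl k) ≠ 0 → k ∈ K := by
      intro k hk
      by_contra hkK
      apply hk
      apply hK
      intro j hj
      simp only [dl]
      rw [if_neg]
      rintro rfl
      exact hkK hj
    set S := K.filter fun k => v (dl k) ≠ 0 ∧ k ≠ 0 with hSdef
    have hSne : S.Nonempty := ⟨k0, by
      rw [hSdef, Finset.mem_filter]
      exact ⟨hmemK k0 hk0', hk0', hk0⟩⟩
    obtain ⟨k, hkS, hkmax⟩ := S.exists_max_image (fun k => |k|) hSne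
    rw [hSdef, Finset.mem_filter] at hkS
    obtain ⟨-, hkv, hk⟩ := hkS
    have hkpos : 0 < |k| := abs_pos.2 hk
    have hbig : ∀ j : ℝ, |k| < |j| → v (dl j) = 0 := by
      intro j hj
      by_contra hjv
      have : j ∈ S := by
        rw [hSdef, Finset.mem_filter]
        refine ⟨hmemK j hjv, hjv, ?_⟩
        rintro rfl
        rw [abs_zero] at hj
        exact absurd hj (not_lt.2 (abs_nonneg k))
      exact absurd (hkmax j this) (not_le.2 hj)
    have hr := hrel (dl (k / u1))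
    rw [dilB_dl hu1, dilB_dl hu2', dilB_dl (inv_pos.2 h1), dilB_dl (inv_pos.2 h2)] at hr
    have e1 : u1 * (k / u1) = k := by field_simp
    rw [e1] at hr
    have b1 : |k| < |μ1⁻¹ * k| := by
      rw [abs_mul, abs_of_pos (inv_pos.2 h1)]
      have : 1 < μ1⁻¹ := (one_lt_inv₀ h1).2 h1'
      nlinarith
    have b2 : |k| < |u2 * (k / u1)| := by
      rw [show u2 * (k / u1) = (u2 / u1) * k by ring, abs_mul,
        abs_of_pos (div_pos hu2' hu1)]
      have : 1 < u2 / u1 := (one_lt_div hu1).2 hu2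
      nlinarith
    have b3 : |k| < |μ2⁻¹ * (u2 * (k / u1))| := by
      rw [abs_mul μ2⁻¹, abs_of_pos (inv_pos.2 h2)]
      have : 1 < μ2⁻¹ := (one_lt_inv₀ h2).2 h2'
      nlinarith [abs_nonneg (u2 * (k / u1))]
    rw [hbig _ b1, hbig _ b2, hbig _ b3, sub_zero, sub_zero] at hr
    exact hkv hr
  -- the general formula
  have hform : ∀ κ : Bt, v κ = ∑ k ∈ K, (κ k : ℝ) * v (dl k) := by
    intro κ
    have h3 : v (κ - ∑ k ∈ K, κ k • dl k) = 0 := by
      apply hK
      intro j hj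
      rw [Pi.sub_apply, Finset.sum_apply]
      rw [Finset.sum_eq_single j]
      · simp [dl]
      · intro k _ hkj
        simp only [Pi.smul_apply, dl]
        rw [if_neg (Ne.symm hkj)]
        simp
      · intro h
        exact absurd hj h
    rw [map_sub, map_sum, sub_eq_zero] at h3
    rw [h3]
    apply Finset.sum_congr rfl
    intro k _
    rw [map_zsmul]
    simp
  have h0 : v (dl 0) = 0 := by
    by_cases h0K : (0 : ℝ) ∈ K
    · have hZ := hper (fun k => if ∃ n : ℤ, (n : ℝ) = k then 1 else 0) (by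
        intro k
        have : (∃ n : ℤ, (n : ℝ) = k + 1) ↔ ∃ n : ℤ, (n : ℝ) = k := by
          constructor
          · rintro ⟨n, hn⟩
            exact ⟨n - 1, by push_cast; linarith⟩
          · rintro ⟨n, hn⟩
            exact ⟨n + 1, by push_cast; linarith⟩
        simp only [this])
      rw [hform, Finset.sum_eq_single 0] at hZ
      · rw [if_pos ⟨0, by simp⟩] at hZ
        simpa using hZ
      · intro k _ hk
        rw [hS k hk, mul_zero]
      · intro h
        exact absurd h0K h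
    · apply hK
      intro j hj
      simp only [dl]
      rw [if_neg]
      rintro rfl
      exact h0K hj
  rw [hform]
  apply Finset.sum_eq_zero
  intro k _
  by_cases hk : k = 0
  · rw [hk, h0, mul_zero]
  · rw [hS k hk, mul_zero]

end Pool.Agent.Helper455.NV
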