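import Pool.Agent.Helper455.NV.Data

/-!
Existence of the real configurations on which all four faces are infinitesimal.
-/

namespace Pool.Agent.Helper455.NV

open H Lt Fc

/-- A real configuration. -/
def mk6 (y12 y13 y14 y23 y24 y34 : ℝ) : Lt → ℝ
  | l12 => y12
  | l13 => y13
  | l14 => y14
  | l23 => y23
  | l24 => y24
  | l34 => y34

lemma mk6_add_smul (a1 a2 a3 a4 a5 a6 b1 b2 b3 b4 b5 b6 t : ℝ) :
    mk6 a1 a2 a3 a4 a5 a6 + t • mk6 b1 b2 b3 b4 b5 b6 =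
      mk6 (a1 + t * b1) (a2 + t * b2) (a3 + t * b3) (a4 + t * b4) (a5 + t * b5) (a6 + t * b6) := by
  funext l
  cases l <;> rfl

lemma smul_mk6 (a1 a2 a3 a4 a5 a6 t : ℝ) :
    t • mk6 a1 a2 a3 a4 a5 a6 = mk6 (t * a1) (t * a2) (t * a3) (t * a4) (t * a5) (t * a6) := by
  funext l
  cases l <;> rfl

lemma continuous_mk6_path (y0 v : Lt → ℝ) : Continuous fun t : ℝ => y0 + t • v := by
  fun_prop

namespace Data

variable {A : Type} [CommGroup A] (D : Data A)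

/-- The defect of a face. -/
def x (F : Fc) : A := D.a F.e1 * D.a F.e2 * (D.a F.e3)⁻¹

lemma x_FE (F : Fc) : D.FE F (D.x F) := (FE.a1.mul FE.a2).mul FE.a3.inv

lemma law : D.x f123 * D.x f134 = D.x f124 * D.x f234 := by
  simp only [x, Fc.e1, Fc.e2, Fc.e3]
  generalize D.a l12 = a12
  generalize D.a l13 = a13
  generalize D.a l14 = a14
  generalize D.a l23 = a23
  generalize D.a l24 = a24
  generalize D.a l34 = a34
  rw [show a12 * a23 * a13⁻¹ * (a13 * a34 * a14⁻¹) = (a13⁻¹ * a13) * (a12 * a23 * a34 * a14⁻¹) by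
      simp only [mul_assoc, mul_left_comm],
    show a12 * a24 * a14⁻¹ * (a23 * a34 * a24⁻¹) = (a24⁻¹ * a24) * (a12 * a23 * a34 * a14⁻¹) by
      simp only [mul_assoc, mul_left_comm, mul_comm]]
  simp

variable {D}

lemma x_pos {F : Fc} {y : Lt → ℝ} (h3 : y F.e3 = 0) (h : y F.e1 ≠ 0 ∨ y F.e2 ≠ 0) :
    D.PosT y (D.x F) := by
  unfold x
  apply Pos.mul_M
  · rcases h with h | h
    · exact (pos_a (D := D) (θ := pt y 0) h).mul_N (D.a_pos _ _)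
    · rw [mul_comm]
      exact (pos_a (D := D) (θ := pt y 0) h).mul_N (D.a_pos _ _)
  · exact (D.M _).inv_mem ((D.a_M _ _).2 h3)

lemma x_neg {F : Fc} {y : Lt → ℝ} (h1 : y F.e1 = 0) (h2 : y F.e2 = 0) (h : y F.e3 ≠ 0) :
    D.PosT y (D.x F)⁻¹ := by
  unfold x
  rw [mul_inv, inv_inv, mul_comm]
  apply Pos.mul_M
  · exact pos_a (D := D) (θ := pt y 0) h
  · exact (D.M _).inv_mem ((D.M _).mul_mem ((D.a_M _ _).2 h1) ((D.a_M _ _).2 h2))

variable (D)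

/-- All four faces are infinitesimal. -/
def Conf (y : Lt → ℝ) : Prop := ∀ F, D.ZeroT y (D.x F)

variable {D}

lemma conf_of_123_134_234 {y : Lt → ℝ} (h1 : D.ZeroT y (D.x f123)) (h2 : D.ZeroT y (D.x f134))
    (h3 : D.ZeroT y (D.x f234)) : D.Conf y := by
  intro F
  rw [ZeroT_iff] at h1 h2 h3 ⊢
  cases F
  · exact h1
  · exact h2
  · have e : D.x f124 = D.x f123 * D.x f134 * (D.x f234)⁻¹ := by
      rw [D.law]
      simp
    rw [e]
    exact (D.M _).mul_mem ((D.M _).mul_mem h1 h2) ((D.M _).inv_mem h3)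
  · exact h3

lemma conf_of_123_124_234 {y : Lt → ℝ} (h1 : D.ZeroT y (D.x f123)) (h2 : D.ZeroT y (D.x f124))
    (h3 : D.ZeroT y (D.x f234)) : D.Conf y := by
  intro F
  rw [ZeroT_iff] at h1 h2 h3 ⊢
  cases F
  · exact h1
  · have e : D.x f134 = D.x f124 * D.x f234 * (D.x f123)⁻¹ := by
      rw [← D.law]
      rw [mul_comm (D.x f123)]
      simp
    rw [e]
    exact (D.M _).mul_mem ((D.M _).mul_mem h2 h3) ((D.M _).inv_mem h1)
  · exact h2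
  · exact h3

variable (D)

/-- First location: the face `134`. -/
lemma loc134 : ∃ lam : ℝ, 0 < lam ∧ D.ZeroT (mk6 0 1 lam 0 0 0) (D.x f134) ∧
    ∀ t, 1 < t → D.PosT (mk6 0 t lam 0 0 0) (D.x f134) := by
  obtain ⟨t0, h0, h1, h2⟩ := (D.x_FE f134).threshold
    (fun t => mk6 0 0 1 0 0 0 + t • mk6 0 1 0 0 0 0) (continuous_mk6_path _ _)
    (by
      rw [zero_smul, add_zero]
      exact x_neg rfl rfl one_ne_zero)
    (by
      obtain ⟨T0, -, h⟩ := (D.x_FE f134).eventually (mk6 0 0 1 0 0 0) (mk6 0 1 0 0 0 0)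
        (x_pos rfl (Or.inl one_ne_zero))
      exact ⟨T0, h⟩)
  have e : ∀ t : ℝ, mk6 0 0 1 0 0 0 + (t * t0) • mk6 0 1 0 0 0 0 =
      t0 • mk6 0 t t0⁻¹ 0 0 0 := by
    intro t
    rw [mk6_add_smul, smul_mk6]
    congr 1 <;> (try field_simp) <;> (try ring)
  refine ⟨t0⁻¹, inv_pos.2 h0, ?_, fun t ht => ?_⟩
  · have := e 1
    rw [one_mul] at this
    simp only [this] at h1
    exact ((D.x_FE f134).zeroT_smul h0).1 h1
  · have := h2 (t * t0) (by nlinarith)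
    simp only [e] at this
    exact ((D.x_FE f134).posT_smul h0).1 this

/-- Second location: the face `234`. -/
lemma loc234 : ∃ sig : ℝ, 0 < sig ∧ ∀ rho, 0 < rho →
    D.ZeroT (mk6 0 0 0 rho (sig * rho) 0) (D.x f234) := by
  obtain ⟨t0, h0, h1, -⟩ := (D.x_FE f234).threshold
    (fun t => mk6 0 0 0 0 1 0 + t • mk6 0 0 0 1 0 0) (continuous_mk6_path _ _)
    (by
      rw [zero_smul, add_zero]
      exact x_neg rfl rfl one_ne_zero)
    (by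
      obtain ⟨T0, -, h⟩ := (D.x_FE f234).eventually (mk6 0 0 0 0 1 0) (mk6 0 0 0 1 0 0)
        (x_pos rfl (Or.inl one_ne_zero))
      exact ⟨T0, h⟩)
  refine ⟨t0⁻¹, inv_pos.2 h0, fun rho hrho => ?_⟩
  have e : mk6 0 0 0 rho (t0⁻¹ * rho) 0 =
      (rho * t0⁻¹) • (mk6 0 0 0 0 1 0 + t0 • mk6 0 0 0 1 0 0) := by
    rw [mk6_add_smul, smul_mk6]
    congr 1 <;> (try field_simp) <;> (try ring)
  rw [e]
  exact ((D.x_FE f234).zeroT_smul (by positivity)).2 h1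

/-- Independence of `y12`. -/
lemma indep (u t : ℝ) :
    (D.PosT (mk6 u 1 0 t 0 0) (D.a l23 * (D.a l13)⁻¹) ↔
      D.PosT (mk6 0 1 0 t 0 0) (D.a l23 * (D.a l13)⁻¹)) ∧
    (D.PosT (mk6 u 1 0 t 0 0) (D.a l23 * (D.a l13)⁻¹)⁻¹ ↔
      D.PosT (mk6 0 1 0 t 0 0) (D.a l23 * (D.a l13)⁻¹)⁻¹) := by
  have hw : D.FE f123 (D.a l23 * (D.a l13)⁻¹) := FE.a2.mul FE.a3.inv
  have hz2 : D.FE f134 (D.a l34 * (D.a l13)⁻¹) := FE.a2.mul FE.a1.inv
  have hz3 : D.FE f234 (D.a l23 * (D.a l34)⁻¹) := FE.a1.mul FE.a2.inv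
  obtain ⟨nu, hnu, h1, -⟩ := hz2.threshold
    (fun t => mk6 0 1 0 0 0 0 + t • mk6 0 0 0 0 0 1) (continuous_mk6_path _ _)
    (by
      rw [zero_smul, add_zero, mul_inv, inv_inv, mul_comm]
      exact (pos_a (D := D) (θ := pt _ 0) one_ne_zero).mul_M
        ((D.M _).inv_mem ((D.a_M _ _).2 rfl)))
    (by
      obtain ⟨T0, -, h⟩ := hz2.eventually (mk6 0 1 0 0 0 0) (mk6 0 0 0 0 0 1)
        ((pos_a (D := D) (θ := pt _ 0) one_ne_zero).mul_M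
          ((D.M _).inv_mem ((D.a_M _ _).2 rfl)))
      exact ⟨T0, h⟩)
  have key : ∀ u : ℝ, D.a l34 * (D.a l13)⁻¹ ∈ D.M (pt (mk6 u 1 0 t 0 nu) 0) := by
    intro u
    rw [← ZeroT_iff]
    refine (hz2.zeroT_congr ?_).1 h1
    refine ⟨?_, ?_, ?_⟩ <;> simp [mk6, Fc.e1, Fc.e2, Fc.e3]
  have e : D.a l23 * (D.a l13)⁻¹ = (D.a l23 * (D.a l34)⁻¹) * (D.a l34 * (D.a l13)⁻¹) := by
    simp [mul_assoc]
  have s1 : ∀ u : ℝ, D.PosT (mk6 u 1 0 t 0 0) (D.a l23 * (D.a l13)⁻¹) ↔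
      D.PosT (mk6 u 1 0 t 0 nu) (D.a l23 * (D.a l34)⁻¹) := by
    intro u
    rw [hw.posT_congr (y := mk6 u 1 0 t 0 0) (y' := mk6 u 1 0 t 0 nu) ⟨rfl, rfl, rfl⟩, e]
    exact pos_mul_M_iff (key u)
  have s2 : ∀ u : ℝ, D.PosT (mk6 u 1 0 t 0 0) (D.a l23 * (D.a l13)⁻¹)⁻¹ ↔
      D.PosT (mk6 u 1 0 t 0 nu) (D.a l23 * (D.a l34)⁻¹)⁻¹ := by
    intro u
    rw [hw.inv.posT_congr (y := mk6 u 1 0 t 0 0) (y' := mk6 u 1 0 t 0 nu) ⟨rfl, rfl, rfl⟩, e,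
      mul_inv]
    exact pos_mul_M_iff ((D.M _).inv_mem (key u))
  constructor
  · rw [s1, s1]
    exact hz3.posT_congr ⟨rfl, rfl, rfl⟩
  · rw [s2, s2]
    exact hz3.inv.posT_congr ⟨rfl, rfl, rfl⟩

/-- Third family of locations: the face `123`. -/
lemma loc123 : ∃ rho0 : ℝ, 0 < rho0 ∧ D.ZeroT (mk6 0 1 0 rho0 0 0) (D.x f123) ∧
    ∃ δ : ℝ, 0 < δ ∧ ∀ u, 0 < u → u < δ → ∃ rho : ℝ, 0 < rho ∧ rho < rho0 ∧
      D.ZeroT (mk6 u 1 0 rho 0 0) (D.x f123) := by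
  obtain ⟨rho0, h0, h1, h2⟩ := (D.x_FE f123).threshold
    (fun t => mk6 0 1 0 0 0 0 + t • mk6 0 0 0 1 0 0) (continuous_mk6_path _ _)
    (by
      rw [zero_smul, add_zero]
      exact x_neg rfl rfl one_ne_zero)
    (by
      obtain ⟨T0, -, h⟩ := (D.x_FE f123).eventually (mk6 0 1 0 0 0 0) (mk6 0 0 0 1 0 0)
        (x_pos rfl (Or.inr one_ne_zero))
      exact ⟨T0, h⟩)
  have e : ∀ u t : ℝ, mk6 u 1 0 0 0 0 + t • mk6 0 0 0 1 0 0 = mk6 u 1 0 t 0 0 := by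
    intro u t
    rw [mk6_add_smul]
    congr 1 <;> ring
  simp only [e] at h1 h2
  obtain ⟨δ, hδ, h3⟩ := (D.x_FE f123).inv.nearby (mk6 0 1 0 0 0 0) (mk6 1 0 0 0 0 0)
    (x_neg rfl rfl one_ne_zero)
  have e' : ∀ u : ℝ, mk6 0 1 0 0 0 0 + u • mk6 1 0 0 0 0 0 = mk6 u 1 0 0 0 0 := by
    intro u
    rw [mk6_add_smul]
    congr 1 <;> ring
  simp only [e'] at h3
  have ex : D.x f123 = (D.a l23 * (D.a l13)⁻¹) * D.a l12 := by
    simp only [x, Fc.e1, Fc.e2, Fc.e3]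
    rw [mul_assoc, mul_comm]
  refine ⟨rho0, h0, h1, δ, hδ, fun u hu hu' => ?_⟩
  have hlarge : ∀ t, rho0 ≤ t → D.PosT (mk6 u 1 0 t 0 0) (D.x f123) := by
    intro t ht
    have hMa : D.a l12 ∈ D.M (pt (mk6 0 1 0 t 0 0) 0) := (D.a_M _ _).2 rfl
    have hpa : D.PosT (mk6 u 1 0 t 0 0) (D.a l12) :=
      pos_a (D := D) (θ := pt _ 0) (by simpa [mk6] using hu.ne')
    rcases ht.lt_or_eq with h | h
    · have h4 := h2 t h
      rw [ex] at h4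
      have h5 : D.PosT (mk6 0 1 0 t 0 0) (D.a l23 * (D.a l13)⁻¹) := (pos_mul_M_iff hMa).1 h4
      have h6 := (D.indep u t).1.2 h5
      rw [ex]
      exact Pos.mul_N h6 (D.a_pos _ _)
    · subst h
      have h4 : D.ZeroT (mk6 0 1 0 rho0 0 0) (D.a l23 * (D.a l13)⁻¹) := by
        rw [ZeroT_iff]
        rw [ZeroT_iff, ex] at h1
        have := (D.M _).mul_mem h1 ((D.M _).inv_mem hMa)
        simpa using this
      have h5 : D.ZeroT (mk6 u 1 0 rho0 0 0) (D.a l23 * (D.a l13)⁻¹) := by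
        unfold ZeroT
        rw [(D.indep u rho0).1, (D.indep u rho0).2]
        exact h4
      rw [ex, mul_comm]
      exact Pos.mul_M hpa (ZeroT_iff.1 h5)
  obtain ⟨t0, k0, k1, -⟩ := (D.x_FE f123).threshold
    (fun t => mk6 u 1 0 0 0 0 + t • mk6 0 0 0 1 0 0) (continuous_mk6_path _ _)
    (by
      rw [zero_smul, add_zero]
      exact h3 u hu.le hu')
    (by
      refine ⟨rho0, fun t ht => ?_⟩
      rw [e]
      exact hlarge t ht)
  simp only [e] at k1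
  refine ⟨t0, k0, ?_, k1⟩
  by_contra hcon
  push Not at hcon
  exact k1.1 (hlarge t0 hcon)

/-- Fourth family of locations: the face `124`. -/
lemma loc124 (s : ℝ) : ∃ q : ℝ, 0 < q ∧ D.ZeroT (mk6 1 0 q 0 s 0) (D.x f124) := by
  obtain ⟨t0, h0, h1, -⟩ := (D.x_FE f124).inv.threshold
    (fun t => mk6 1 0 0 0 s 0 + t • mk6 0 0 1 0 0 0) (continuous_mk6_path _ _)
    (by
      rw [zero_smul, add_zero, inv_inv]
      exact x_pos rfl (Or.inl one_ne_zero))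
    (by
      obtain ⟨T0, -, h⟩ := (D.x_FE f124).inv.eventually (mk6 1 0 0 0 s 0) (mk6 0 0 1 0 0 0)
        (x_neg rfl rfl one_ne_zero)
      exact ⟨T0, h⟩)
  have e : mk6 1 0 0 0 s 0 + t0 • mk6 0 0 1 0 0 0 = mk6 1 0 t0 0 s 0 := by
    rw [mk6_add_smul]
    congr 1 <;> ring
  simp only [e] at h1
  refine ⟨t0, h0, ?_⟩
  unfold ZeroT at h1 ⊢
  rw [inv_inv] at h1
  exact h1.symm

/-- Fifth family of locations: the face `234` with nonzero `y34`. -/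
lemma loc234' (r : ℝ) : ∃ s0 : ℝ, 0 < s0 ∧ ∀ s, s0 ≤ s → ∃ f : ℝ, 0 < f ∧
    D.ZeroT (mk6 0 0 0 r s f) (D.x f234) := by
  obtain ⟨s0, hs0, h⟩ := (D.x_FE f234).inv.eventually (mk6 0 0 0 r 0 0) (mk6 0 0 0 0 1 0)
    (x_neg rfl rfl one_ne_zero)
  have e : ∀ s : ℝ, mk6 0 0 0 r 0 0 + s • mk6 0 0 0 0 1 0 = mk6 0 0 0 r s 0 := by
    intro s
    rw [mk6_add_smul]
    congr 1 <;> ring
  simp only [e] at h
  refine ⟨s0, hs0, fun s hs => ?_⟩
  obtain ⟨t0, h0, h1, -⟩ := (D.x_FE f234).threshold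
    (fun t => mk6 0 0 0 r s 0 + t • mk6 0 0 0 0 0 1) (continuous_mk6_path _ _)
    (by
      rw [zero_smul, add_zero]
      exact h s hs)
    (by
      obtain ⟨T0, -, h⟩ := (D.x_FE f234).eventually (mk6 0 0 0 r s 0) (mk6 0 0 0 0 0 1)
        (x_pos rfl (Or.inr one_ne_zero))
      exact ⟨T0, h⟩)
  have e : mk6 0 0 0 r s 0 + t0 • mk6 0 0 0 0 0 1 = mk6 0 0 0 r s t0 := by
    rw [mk6_add_smul]
    congr 1 <;> ring
  simp only [e] at h1
  exact ⟨t0, h0, h1⟩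

end Data

end Pool.Agent.Helper455.NV
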