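import Mathlib

/-!
Convex `l`-subgroups, principal ones, and what an isomorphism of their lattices transports.
-/

namespace Pool.Agent.Helper455.NV

section Gen

variable {X : Type*} [Group X] [Lattice X]

/-- Convex `l`-subgroups. -/
def IsCL (K : Subgroup X) : Prop :=
  (∀ x ∈ K, ∀ y ∈ K, x ⊔ y ∈ K ∧ x ⊓ y ∈ K) ∧
    ∀ x ∈ K, ∀ y ∈ K, ∀ z : X, x ≤ z → z ≤ y → z ∈ K

variable (X) in
/-- The ordered set of convex `l`-subgroups. -/
abbrev CS : Type _ := {K : Subgroup X // IsCL K}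

variable [MulLeftMono X] [MulRightMono X]

/-- The principal convex `l`-subgroup of a positive element. -/
def pr (g : X) (hg : 1 ≤ g) : CS X :=
  ⟨{ carrier := {x | ∃ n : ℕ, x ≤ g ^ n ∧ x⁻¹ ≤ g ^ n}
     one_mem' := ⟨0, by simp, by simp⟩
     mul_mem' := by
       rintro x y ⟨n, h1, h2⟩ ⟨m, h3, h4⟩
       refine ⟨n + m, ?_, ?_⟩
       · rw [pow_add]
         exact mul_le_mul' h1 h3
       · rw [add_comm, pow_add, mul_inv_rev]
         exact mul_le_mul' h4 h2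
     inv_mem' := by
       rintro x ⟨n, h1, h2⟩
       exact ⟨n, h2, by simpa using h1⟩ }, by
    constructor
    · rintro x ⟨n, h1, h2⟩ y ⟨m, h3, h4⟩
      have hn : g ^ n ≤ g ^ (n + m) := pow_le_pow_right' hg (Nat.le_add_right _ _)
      have hm : g ^ m ≤ g ^ (n + m) := pow_le_pow_right' hg (Nat.le_add_left _ _)
      constructor
      · refine ⟨n + m, sup_le (h1.trans hn) (h3.trans hm), ?_⟩
        exact (inv_le_inv_iff.2 le_sup_left).trans (h2.trans hn)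
      · refine ⟨n + m, inf_le_left.trans (h1.trans hn), ?_⟩
        rw [inv_inf]
        exact sup_le (h2.trans hn) (h4.trans hm)
    · rintro x ⟨n, h1, h2⟩ y ⟨m, h3, h4⟩ z hxz hzy
      have hn : g ^ n ≤ g ^ (n + m) := pow_le_pow_right' hg (Nat.le_add_right _ _)
      have hm : g ^ m ≤ g ^ (n + m) := pow_le_pow_right' hg (Nat.le_add_left _ _)
      exact ⟨n + m, hzy.trans (h3.trans hm), (inv_le_inv_iff.2 hxz).trans (h2.trans hn)⟩⟩

lemma mem_pr_iff {g : X} {hg : 1 ≤ g} {x : X} :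
    x ∈ (pr g hg).1 ↔ ∃ n : ℕ, x ≤ g ^ n ∧ x⁻¹ ≤ g ^ n := Iff.rfl

lemma self_mem_pr (g : X) (hg : 1 ≤ g) : g ∈ (pr g hg).1 :=
  ⟨1, by simp, by simpa using (inv_le_one'.2 hg).trans hg⟩

lemma pr_le_iff {g : X} {hg : 1 ≤ g} {K : CS X} : pr g hg ≤ K ↔ g ∈ K.1 := by
  constructor
  · intro h
    exact h (self_mem_pr g hg)
  · rintro h x ⟨n, h1, h2⟩
    exact K.2.2 (g ^ n)⁻¹ (K.1.inv_mem (K.1.pow_mem h n)) (g ^ n) (K.1.pow_mem h n) x
      (inv_le'.1 h2) h1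

omit [MulLeftMono X] [MulRightMono X] in
lemma CS.abs_mem (K : CS X) {x : X} (hx : x ∈ K.1) : x ⊔ x⁻¹ ∈ K.1 :=
  (K.2.1 x hx x⁻¹ (K.1.inv_mem hx)).1

lemma one_le_abs (x : X) : 1 ≤ x ⊔ x⁻¹ := by
  have : |x|ₘ = x ⊔ x⁻¹ := rfl
  rw [← this]
  exact one_le_mabs x

lemma CS.mem_of_abs (K : CS X) {x : X} (hx : x ⊔ x⁻¹ ∈ K.1) : x ∈ K.1 := by
  refine K.2.2 (x ⊔ x⁻¹)⁻¹ (K.1.inv_mem hx) (x ⊔ x⁻¹) hx x ?_ le_sup_left
  rw [inv_le']
  exact le_sup_right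

end Gen

section Iso

variable {G A : Type*} [Group G] [Lattice G] [MulLeftMono G] [MulRightMono G]
  [Group A] [Lattice A] [MulLeftMono A] [MulRightMono A]

theorem exists_pr (Ψ : CS G ≃o CS A) (a : A) (ha : 1 ≤ a) :
    ∃ (g : G) (hg : 1 ≤ g), Ψ (pr g hg) = pr a ha := by
  set K : CS G := Ψ.symm (pr a ha) with hK
  have hΨK : Ψ K = pr a ha := by rw [hK, OrderIso.apply_symm_apply]
  have mono : ∀ (g h : G) (hg : 1 ≤ g) (hh : 1 ≤ h), g ≤ h → Ψ (pr g hg) ≤ Ψ (pr h hh) := by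
    intro g h hg hh hgh
    rw [OrderIso.le_iff_le, pr_le_iff]
    exact (pr h hh).2.2 1 (pr h hh).1.one_mem h (self_mem_pr h hh) g hg hgh
  let U0 : Subgroup A :=
    { carrier := {x | ∃ (g : G) (hg : 1 ≤ g), g ∈ K.1 ∧ x ∈ (Ψ (pr g hg)).1}
      one_mem' := ⟨1, le_rfl, K.1.one_mem, (Ψ (pr 1 le_rfl)).1.one_mem⟩
      mul_mem' := by
        rintro x y ⟨g, hg, hgK, hx⟩ ⟨h, hh, hhK, hy⟩
        refine ⟨g ⊔ h, hg.trans le_sup_left, (K.2.1 g hgK h hhK).1, ?_⟩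
        exact Subgroup.mul_mem _ (mono g _ hg _ le_sup_left hx) (mono h _ hh _ le_sup_right hy)
      inv_mem' := by
        rintro x ⟨g, hg, hgK, hx⟩
        exact ⟨g, hg, hgK, Subgroup.inv_mem _ hx⟩ }
  have hU : IsCL U0 := by
    constructor
    · rintro x ⟨g, hg, hgK, hx⟩ y ⟨h, hh, hhK, hy⟩
      have hgh : 1 ≤ g ⊔ h := hg.trans le_sup_left
      have h1 := mono g (g ⊔ h) hg hgh le_sup_left hx
      have h2 := mono h (g ⊔ h) hh hgh le_sup_right hy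
      have h3 := (Ψ (pr (g ⊔ h) hgh)).2.1 x h1 y h2
      exact ⟨⟨_, _, (K.2.1 g hgK h hhK).1, h3.1⟩, ⟨_, _, (K.2.1 g hgK h hhK).1, h3.2⟩⟩
    · rintro x ⟨g, hg, hgK, hx⟩ y ⟨h, hh, hhK, hy⟩ z hxz hzy
      have hgh : 1 ≤ g ⊔ h := hg.trans le_sup_left
      have h1 := mono g (g ⊔ h) hg hgh le_sup_left hx
      have h2 := mono h (g ⊔ h) hh hgh le_sup_right hy
      exact ⟨_, _, (K.2.1 g hgK h hhK).1,
        (Ψ (pr (g ⊔ h) hgh)).2.2 x h1 y h2 z hxz hzy⟩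
  let U : CS A := ⟨U0, hU⟩
  have hKU : K ≤ Ψ.symm U := by
    intro x hx
    apply CS.mem_of_abs
    have h1 : Ψ (pr (x ⊔ x⁻¹) (one_le_abs x)) ≤ U := by
      intro z hz
      exact ⟨_, _, CS.abs_mem K hx, hz⟩
    have h2 : pr (x ⊔ x⁻¹) (one_le_abs x) ≤ Ψ.symm U := by
      rwa [OrderIso.le_symm_apply]
    exact pr_le_iff.1 h2
  have haU : a ∈ U.1 := by
    have h1 : Ψ K ≤ U := by rwa [← OrderIso.le_symm_apply]
    rw [hΨK] at h1
    exact h1 (self_mem_pr a ha)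
  obtain ⟨g, hg, hgK, hag⟩ := haU
  refine ⟨g, hg, le_antisymm ?_ (pr_le_iff.2 hag)⟩
  rw [← hΨK, OrderIso.le_iff_le]
  exact pr_le_iff.2 hgK

theorem exists_pr' (Ψ : CS G ≃o CS A) (g : G) (hg : 1 ≤ g) :
    ∃ (a : A) (ha : 1 ≤ a), Ψ (pr g hg) = pr a ha := by
  obtain ⟨a, ha, h⟩ := exists_pr Ψ.symm g hg
  refine ⟨a, ha, ?_⟩
  rw [← h, OrderIso.apply_symm_apply]

theorem mem_iff_of_pr {Ψ : CS G ≃o CS A} {g : G} {hg : 1 ≤ g} {a : A} {ha : 1 ≤ a}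
    (h : Ψ (pr g hg) = pr a ha) (K : CS G) : a ∈ (Ψ K).1 ↔ g ∈ K.1 := by
  rw [← pr_le_iff (hg := ha), ← h, OrderIso.le_iff_le, pr_le_iff]

end Iso

section Disj

variable {X : Type*} [Group X] [Lattice X] [MulLeftMono X] [MulRightMono X]

lemma inf_mul_le {a b c : X} (ha : 1 ≤ a) (hb : 1 ≤ b) (hc : 1 ≤ c) :
    a ⊓ (b * c) ≤ (a ⊓ b) * (a ⊓ c) := by
  rw [inf_mul, mul_inf, mul_inf]
  refine le_inf (le_inf ?_ ?_) (le_inf ?_ ?_)
  · exact inf_le_left.trans (le_mul_of_one_le_left' ha)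
  · exact inf_le_left.trans (le_mul_of_one_le_right' hc)
  · exact inf_le_left.trans (le_mul_of_one_le_left' hb)
  · exact inf_le_right

lemma disj_pow {a b : X} (ha : 1 ≤ a) (hb : 1 ≤ b) (h : a ⊓ b = 1) (n : ℕ) :
    a ⊓ b ^ n = 1 := by
  induction n with
  | zero => simpa using ha
  | succ n ih =>
    apply le_antisymm
    · rw [pow_succ]
      refine (inf_mul_le ha (one_le_pow_of_one_le' hb n) hb).trans ?_
      rw [ih, h, one_mul]
    · exact le_inf ha (one_le_pow_of_one_le' hb _)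

lemma disj_pow_pow {a b : X} (ha : 1 ≤ a) (hb : 1 ≤ b) (h : a ⊓ b = 1) (n m : ℕ) :
    a ^ n ⊓ b ^ m = 1 := by
  have h1 := disj_pow ha hb h m
  rw [inf_comm] at h1 ⊢
  exact disj_pow (one_le_pow_of_one_le' hb m) ha h1 n

end Disj

end Pool.Agent.Helper455.NV
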