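import Mathlib

/-!
The real valued functional of a totally preordered abelian group with an archimedean unit.
-/

namespace Pool.Agent.Helper455.NV

variable {A : Type*} [CommGroup A]

/-- The set of rational lower bounds of `x` in units of `b`. -/
def holSet (N : Submonoid A) (b x : A) : Set ℝ :=
  {r : ℝ | ∃ m : ℕ, 0 < m ∧ ∃ q : ℤ, r = (q : ℝ) / m ∧ x ^ m * b ^ (-q) ∈ N}

/-- The ratio of `x` and `b`. -/
noncomputable def hol (N : Submonoid A) (b x : A) : ℝ := sSup (holSet N b x)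

/-- A totally preordered abelian group with an archimedean unit. -/
structure HolData (N : Submonoid A) (M : Subgroup A) (b : A) : Prop where
  tot : ∀ x, x ∈ N ∨ x⁻¹ ∈ N
  b_mem : b ∈ N
  b_not : b⁻¹ ∉ N
  b_M : b ∈ M
  arch : ∀ x ∈ M, ∃ n : ℕ, x * b ^ n ∈ N

namespace HolData

variable {N : Submonoid A} {M : Subgroup A} {b : A} (hd : HolData N M b)

include hd

lemma zpow_mem {k : ℤ} (h : b ^ k ∈ N) : 0 ≤ k := by
  by_contra hk
  push Not at hk
  apply hd.b_not
  obtain ⟨n, hn⟩ : ∃ n : ℕ, k = -(n + 1 : ℤ) := ⟨(-k - 1).toNat, by omega⟩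
  have e : b⁻¹ = b ^ k * b ^ n := by
    rw [hn, ← zpow_natCast, ← zpow_add, ← zpow_neg_one]
    congr 1
    ring
  rw [e]
  exact N.mul_mem h (N.pow_mem hd.b_mem n)

lemma zpow_mem' {k : ℤ} (h : 0 ≤ k) : b ^ k ∈ N := by
  obtain ⟨n, rfl⟩ := Int.eq_ofNat_of_zero_le h
  rw [zpow_natCast]
  exact N.pow_mem hd.b_mem n

lemma root {z : A} {m : ℕ} (hm : 0 < m) (h : z ^ m ∈ N) : z ∈ N := by
  rcases hd.tot z with h1 | h1
  · exact h1
  · obtain ⟨k, rfl⟩ : ∃ k, m = k + 1 := ⟨m - 1, by omega⟩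
    have e : z = z ^ (k + 1) * (z⁻¹) ^ k := by
      rw [pow_succ, inv_pow, mul_comm (z ^ k) z, mul_assoc, mul_inv_cancel, mul_one]
    rw [e]
    exact N.mul_mem h (N.pow_mem h1 k)

lemma nonempty {x : A} (hx : x ∈ M) : (holSet N b x).Nonempty := by
  obtain ⟨n, hn⟩ := hd.arch x hx
  refine ⟨-(n : ℝ), 1, one_pos, -(n : ℤ), by simp, ?_⟩
  simpa using hn

lemma bddAbove {x : A} (hx : x ∈ M) : BddAbove (holSet N b x) := by
  obtain ⟨n, hn⟩ := hd.arch x⁻¹ (M.inv_mem hx)
  refine ⟨n, ?_⟩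
  rintro r ⟨m, hm, q, rfl, h⟩
  have h1 : b ^ ((n : ℤ) * m - q) ∈ N := by
    have e : b ^ ((n : ℤ) * m - q) = (x⁻¹ * b ^ n) ^ m * (x ^ m * b ^ (-q)) := by
      rw [mul_pow, inv_pow, ← pow_mul, ← zpow_natCast b (n * m)]
      rw [show (x ^ m)⁻¹ * b ^ ((n * m : ℕ) : ℤ) * (x ^ m * b ^ (-q)) =
        ((x ^ m)⁻¹ * x ^ m) * (b ^ ((n * m : ℕ) : ℤ) * b ^ (-q)) by
          simp only [mul_assoc, mul_left_comm, mul_comm]]
      rw [inv_mul_cancel, one_mul, ← zpow_add]
      push_cast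
      congr 1
    rw [e]
    exact N.mul_mem (N.pow_mem hn m) h
  have h2 := hd.zpow_mem h1
  have hm' : (0 : ℝ) < m := by exact_mod_cast hm
  rw [div_le_iff₀ hm']
  have h3 : q ≤ n * m := by linarith
  exact_mod_cast h3

lemma mem_of_lt {x : A} (hx : x ∈ M) {m : ℕ} (hm : 0 < m) {q : ℤ}
    (h : (q : ℝ) / m < hol N b x) : x ^ m * b ^ (-q) ∈ N := by
  obtain ⟨r, ⟨m', hm', q', rfl, h1⟩, h2⟩ := exists_lt_of_lt_csSup (hd.nonempty hx) h
  have hmr : (0 : ℝ) < m := by exact_mod_cast hm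
  have hmr' : (0 : ℝ) < m' := by exact_mod_cast hm'
  rw [div_lt_div_iff₀ hmr hmr'] at h2
  have h3 : q * m' < q' * m := by exact_mod_cast h2
  apply hd.root hm'
  have e : (x ^ m * b ^ (-q)) ^ m' =
      (x ^ m' * b ^ (-q')) ^ m * b ^ (q' * m - q * m') := by
    rw [mul_pow, mul_pow, ← pow_mul, ← pow_mul, mul_comm m m', mul_assoc]
    congr 1
    rw [← zpow_natCast (b ^ (-q)), ← zpow_natCast (b ^ (-q')), ← zpow_mul, ← zpow_mul, ← zpow_add]
    congr 1
    ring
  rw [e]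
  exact N.mul_mem (N.pow_mem h1 m) (hd.zpow_mem' (by linarith))

lemma le_hol {x : A} (hx : x ∈ M) {m : ℕ} (hm : 0 < m) {q : ℤ}
    (h : x ^ m * b ^ (-q) ∈ N) : (q : ℝ) / m ≤ hol N b x :=
  le_csSup (hd.bddAbove hx) ⟨m, hm, q, rfl, h⟩

lemma inv_mem_of_lt {x : A} (hx : x ∈ M) {m : ℕ} (hm : 0 < m) {q : ℤ}
    (h : hol N b x < (q : ℝ) / m) : (x ^ m * b ^ (-q))⁻¹ ∈ N := by
  rcases hd.tot (x ^ m * b ^ (-q)) with h1 | h1
  · exact absurd (hd.le_hol hx hm h1) (not_le.2 h)
  · exact h1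

lemma hol_mul {x y : A} (hx : x ∈ M) (hy : y ∈ M) :
    hol N b (x * y) = hol N b x + hol N b y := by
  have hxy : x * y ∈ M := M.mul_mem hx hy
  have key : ∀ (m : ℕ) (q q' : ℤ), (x * y) ^ m * b ^ (-(q + q')) =
      (x ^ m * b ^ (-q)) * (y ^ m * b ^ (-q')) := by
    intro m q q'
    rw [mul_pow, neg_add, zpow_add]
    simp only [mul_assoc, mul_left_comm]
  apply le_antisymm
  · by_contra hcon
    push Not at hcon
    set gap := hol N b (x * y) - (hol N b x + hol N b y) with hgap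
    have hgap0 : 0 < gap := by linarith
    obtain ⟨m, hm⟩ := exists_nat_gt (3 / gap)
    have hm0 : (0 : ℝ) < m := (div_pos (by norm_num) hgap0).trans hm
    have hm0' : 0 < m := by exact_mod_cast hm0
    rw [div_lt_iff₀ hgap0] at hm
    have h1 : hol N b x < ((⌊m * hol N b x⌋ + 1 : ℤ) : ℝ) / m := by
      rw [lt_div_iff₀ hm0]
      push_cast
      have := Int.lt_floor_add_one (m * hol N b x)
      linarith
    have h2 : hol N b y < ((⌊m * hol N b y⌋ + 1 : ℤ) : ℝ) / m := by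
      rw [lt_div_iff₀ hm0]
      push_cast
      have := Int.lt_floor_add_one (m * hol N b y)
      linarith
    have h3 : (((⌊m * hol N b x⌋ + 1) + (⌊m * hol N b y⌋ + 1) + 1 : ℤ) : ℝ) / m <
        hol N b (x * y) := by
      rw [div_lt_iff₀ hm0]
      push_cast
      have a1 := Int.floor_le (m * hol N b x)
      have a2 := Int.floor_le (m * hol N b y)
      nlinarith
    have h4 := hd.inv_mem_of_lt hx hm0' h1
    have h5 := hd.inv_mem_of_lt hy hm0' h2
    have h6 := hd.mem_of_lt hxy hm0' h3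
    apply hd.b_not
    set q := ⌊m * hol N b x⌋ + 1
    set q' := ⌊m * hol N b y⌋ + 1
    have e : b⁻¹ = (x ^ m * b ^ (-q))⁻¹ * (y ^ m * b ^ (-q'))⁻¹ *
        ((x * y) ^ m * b ^ (-(q + q' + 1))) := by
      have e1 : (x * y) ^ m * b ^ (-(q + q' + 1)) =
          (x ^ m * b ^ (-q)) * (y ^ m * b ^ (-q')) * b⁻¹ := by
        rw [← key, mul_assoc]
        congr 1
        rw [← zpow_neg_one b, ← zpow_add]
        congr 1
        ring
      rw [e1]
      generalize x ^ m * b ^ (-q) = U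
      generalize y ^ m * b ^ (-q') = V
      rw [← mul_assoc, ← mul_inv, inv_mul_cancel, one_mul]
    rw [e]
    exact N.mul_mem (N.mul_mem h4 h5) h6
  · by_contra hcon
    push Not at hcon
    set gap := (hol N b x + hol N b y) - hol N b (x * y) with hgap
    have hgap0 : 0 < gap := by linarith
    obtain ⟨m, hm⟩ := exists_nat_gt (2 / gap)
    have hm0 : (0 : ℝ) < m := (div_pos (by norm_num) hgap0).trans hm
    have hm0' : 0 < m := by exact_mod_cast hm0
    rw [div_lt_iff₀ hgap0] at hm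
    have h1 : ((⌈m * hol N b x⌉ - 1 : ℤ) : ℝ) / m < hol N b x := by
      rw [div_lt_iff₀ hm0]
      push_cast
      have := Int.ceil_lt_add_one (m * hol N b x)
      linarith
    have h2 : ((⌈m * hol N b y⌉ - 1 : ℤ) : ℝ) / m < hol N b y := by
      rw [div_lt_iff₀ hm0]
      push_cast
      have := Int.ceil_lt_add_one (m * hol N b y)
      linarith
    have h3 := hd.mem_of_lt hx hm0' h1
    have h4 := hd.mem_of_lt hy hm0' h2
    have h5 := N.mul_mem h3 h4
    rw [← key] at h5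
    have h6 := hd.le_hol hxy hm0' h5
    rw [div_le_iff₀ hm0] at h6
    push_cast at h6
    have a1 := Int.le_ceil (m * hol N b x)
    have a2 := Int.le_ceil (m * hol N b y)
    nlinarith

lemma hol_nonneg {x : A} (hx : x ∈ M) (h : x ∈ N) : 0 ≤ hol N b x := by
  have := hd.le_hol hx one_pos (q := 0) (by simpa using h)
  simpa using this

lemma hol_one : hol N b 1 = 0 := by
  have := hd.hol_mul M.one_mem M.one_mem
  rw [one_mul] at this
  linarith

lemma hol_inv {x : A} (hx : x ∈ M) : hol N b x⁻¹ = -hol N b x := by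
  have := hd.hol_mul hx (M.inv_mem hx)
  rw [mul_inv_cancel, hd.hol_one] at this
  linarith

lemma mem_of_hol_pos {x : A} (hx : x ∈ M) (h : 0 < hol N b x) : x ∈ N := by
  have := hd.mem_of_lt hx one_pos (q := 0) (by simpa using h)
  simpa using this

lemma hol_pow {x : A} (hx : x ∈ M) (n : ℕ) : hol N b (x ^ n) = n * hol N b x := by
  induction n with
  | zero => simp [hd.hol_one]
  | succ n ih =>
    rw [pow_succ, hd.hol_mul (M.pow_mem hx n) hx, ih]
    push_cast
    ring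

lemma hol_b : hol N b b = 1 := by
  apply le_antisymm
  · apply csSup_le (hd.nonempty hd.b_M)
    rintro r ⟨m, hm, q, rfl, h⟩
    have hm' : (0 : ℝ) < m := by exact_mod_cast hm
    rw [div_le_iff₀ hm', one_mul]
    have h1 : b ^ ((m : ℤ) - q) ∈ N := by
      rw [sub_eq_add_neg, zpow_add, zpow_natCast]
      exact h
    have h2 := hd.zpow_mem h1
    have h3 : q ≤ m := by linarith
    exact_mod_cast h3
  · have := hd.le_hol hd.b_M one_pos (q := 1) (by simp [N.one_mem])
    simpa using this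

end HolData

end Pool.Agent.Helper455.NV
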