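import Pool.Agent.Helper455.NV.Good
import Pool.Agent.Helper455.NV.Holder

/-!
The data extracted from an abelian `l`-group on a tetrahedron of letters, and what they imply on
the level of the top (real) components.
-/

namespace Pool.Agent.Helper455.NV

open H

/-- The six edges of a tetrahedron. -/
inductive Lt : Type
  | l12 | l13 | l14 | l23 | l24 | l34

/-- The four faces of a tetrahedron. -/
inductive Fc : Type
  | f123 | f134 | f124 | f234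

open Lt Fc

/-- First edge of a face. -/
def Fc.e1 : Fc → Lt
  | f123 => l12
  | f134 => l13
  | f124 => l12
  | f234 => l23

/-- Second edge of a face. -/
def Fc.e2 : Fc → Lt
  | f123 => l23
  | f134 => l34
  | f124 => l24
  | f234 => l34

/-- Third edge of a face. -/
def Fc.e3 : Fc → Lt
  | f123 => l13
  | f134 => l14
  | f124 => l14
  | f234 => l24

/-- Two families agree on a face. -/
def Agree {α : Type} (F : Fc) (θ θ' : Lt → α) : Prop :=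
  θ F.e1 = θ' F.e1 ∧ θ F.e2 = θ' F.e2 ∧ θ F.e3 = θ' F.e3

/-- The data. -/
structure Data (A : Type) [CommGroup A] where
  a : Lt → A
  b : A
  N : (Lt → H) → Submonoid A
  M : (Lt → H) → Subgroup A
  hd : ∀ θ, HolData (N θ) (M θ) b
  conv : ∀ θ x y, x ∈ N θ → y ∈ M θ → y * x⁻¹ ∈ N θ → x ∈ M θ
  a_pos : ∀ θ l, a l ∈ N θ
  a_M : ∀ θ l, a l ∈ M θ ↔ (θ l).T = 0
  gauge : ∀ (F : Fc) (m1 m2 m3 m4 : ℤ), ∃ g : (Lt → H) → H, Good g ∧ (∀ θ, 1 ≤ g θ) ∧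
    (∀ θ θ', Agree F θ θ' → g θ = g θ') ∧
    (∀ θ, (a F.e1 ^ m1 * a F.e2 ^ m2 * a F.e3 ^ m3 * b ^ m4)⁻¹ ∈ N θ ↔ P0 (g θ)) ∧
    (∀ θ, (a F.e1 ^ m1 * a F.e2 ^ m2 * a F.e3 ^ m3 * b ^ m4 ∈ M θ ∨
      (a F.e1 ^ m1 * a F.e2 ^ m2 * a F.e3 ^ m3 * b ^ m4)⁻¹ ∈ N θ) ↔ (g θ).T = 0)

namespace Data

variable {A : Type} [CommGroup A] (D : Data A)

/-- Elements of the group generated by the letters of a face and `b`. -/
def FE (F : Fc) (z : A) : Prop :=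
  ∃ m1 m2 m3 m4 : ℤ, z = D.a F.e1 ^ m1 * D.a F.e2 ^ m2 * D.a F.e3 ^ m3 * D.b ^ m4

variable {D} {F : Fc} {z w : A} {θ θ' : Lt → H}

lemma FE.mul (hz : D.FE F z) (hw : D.FE F w) : D.FE F (z * w) := by
  obtain ⟨m1, m2, m3, m4, rfl⟩ := hz
  obtain ⟨n1, n2, n3, n4, rfl⟩ := hw
  refine ⟨m1 + n1, m2 + n2, m3 + n3, m4 + n4, ?_⟩
  simp only [zpow_add]
  simp only [mul_assoc, mul_left_comm]

lemma FE.inv (hz : D.FE F z) : D.FE F z⁻¹ := by
  obtain ⟨m1, m2, m3, m4, rfl⟩ := hz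
  exact ⟨-m1, -m2, -m3, -m4, by simp only [mul_inv, zpow_neg]⟩

lemma FE.one : D.FE F 1 := ⟨0, 0, 0, 0, by simp⟩

lemma FE.pow (hz : D.FE F z) (n : ℕ) : D.FE F (z ^ n) := by
  induction n with
  | zero => simpa using FE.one
  | succ n ih =>
    rw [pow_succ]
    exact ih.mul hz

lemma FE.b_zpow (n : ℤ) : D.FE F (D.b ^ n) := ⟨0, 0, 0, n, by simp⟩
lemma FE.a1 : D.FE F (D.a F.e1) := ⟨1, 0, 0, 0, by simp⟩
lemma FE.a2 : D.FE F (D.a F.e2) := ⟨0, 1, 0, 0, by simp⟩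
lemma FE.a3 : D.FE F (D.a F.e3) := ⟨0, 0, 1, 0, by simp⟩

/-- The gauge of a face element. -/
structure Gauge (D : Data A) (F : Fc) (z : A) (g : (Lt → H) → H) : Prop where
  good : Good g
  one_le : ∀ θ, 1 ≤ g θ
  dep : ∀ θ θ', Agree F θ θ' → g θ = g θ'
  mem_N : ∀ θ, z⁻¹ ∈ D.N θ ↔ P0 (g θ)
  mem_M : ∀ θ, (z ∈ D.M θ ∨ z⁻¹ ∈ D.N θ) ↔ (g θ).T = 0

lemma FE.gauge (hz : D.FE F z) : ∃ g, D.Gauge F z g := by
  obtain ⟨m1, m2, m3, m4, rfl⟩ := hz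
  obtain ⟨g, h1, h2, h3, h4, h5⟩ := D.gauge F m1 m2 m3 m4
  exact ⟨g, h1, h2, h3, h4, h5⟩

/-- Face elements: membership in `N θ` only depends on the face. -/
lemma FE.mem_N_iff (hz : D.FE F z) (h : Agree F θ θ') : z ∈ D.N θ ↔ z ∈ D.N θ' := by
  obtain ⟨g, hg⟩ := hz.inv.gauge
  have h1 := hg.mem_N θ
  have h2 := hg.mem_N θ'
  rw [inv_inv] at h1 h2
  rw [h1, h2, hg.dep θ θ' h]

/-- Strict positivity on the top level. -/
def Pos (D : Data A) (θ : Lt → H) (z : A) : Prop := z ∈ D.N θ ∧ z ∉ D.M θ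

lemma Pos.not_inv (h : D.Pos θ z) : z⁻¹ ∉ D.N θ := by
  intro h1
  apply h.2
  exact D.conv θ z 1 h.1 (Subgroup.one_mem _) (by simpa using h1)

lemma Pos.not_pos_inv (h : D.Pos θ z) : ¬ D.Pos θ z⁻¹ := fun h1 => h.not_inv h1.1

lemma pos_iff : D.Pos θ z ↔ ¬ (z ∈ D.M θ ∨ z⁻¹ ∈ D.N θ) := by
  constructor
  · rintro h (h1 | h1)
    · exact h.2 h1
    · exact h.not_inv h1
  · intro h
    push Not at h
    exact ⟨((D.hd θ).tot z).resolve_right h.2, h.1⟩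

lemma mem_M_iff : z ∈ D.M θ ↔ ¬ D.Pos θ z ∧ ¬ D.Pos θ z⁻¹ := by
  constructor
  · intro h
    exact ⟨fun h1 => h1.2 h, fun h1 => h1.2 ((D.M θ).inv_mem h)⟩
  · rintro ⟨h1, h2⟩
    rcases (D.hd θ).tot z with h | h
    · by_contra h3
      exact h1 ⟨h, h3⟩
    · by_contra h3
      exact h2 ⟨h, fun h4 => h3 (by simpa using (D.M θ).inv_mem h4)⟩

lemma Pos.mul_M (h : D.Pos θ z) (hw : w ∈ D.M θ) : D.Pos θ (z * w) := by
  constructor
  · rcases (D.hd θ).tot (z * w) with h1 | h1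
    · exact h1
    · exfalso
      apply h.2
      apply D.conv θ z w⁻¹ h.1 ((D.M θ).inv_mem hw)
      rwa [mul_comm, ← mul_inv]
  · intro h1
    apply h.2
    have := (D.M θ).mul_mem h1 ((D.M θ).inv_mem hw)
    simpa using this

lemma Pos.mul_N (h : D.Pos θ z) (hw : w ∈ D.N θ) : D.Pos θ (z * w) := by
  constructor
  · exact (D.N θ).mul_mem h.1 hw
  · intro h1
    apply h.2
    apply D.conv θ z (z * w) h.1 h1
    simpa [mul_comm, mul_left_comm] using hw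

lemma pos_mul_M_iff (hw : w ∈ D.M θ) : D.Pos θ (z * w) ↔ D.Pos θ z := by
  constructor
  · intro h
    have := h.mul_M ((D.M θ).inv_mem hw)
    simpa using this
  · intro h
    exact h.mul_M hw

lemma pos_a {l : Lt} (h : (θ l).T ≠ 0) : D.Pos θ (D.a l) :=
  ⟨D.a_pos θ l, fun h1 => h ((D.a_M θ l).1 h1)⟩

/-- The top level size of a face element. -/
lemma FE.exists_tau (hz : D.FE F z) : ∃ τ : (Lt → ℝ) → ℝ, Continuous τ ∧ (∀ y, 0 ≤ τ y) ∧
    (∀ c : ℝ, 0 < c → ∀ y, τ (c • y) = c * τ y) ∧ (∀ y y', Agree F y y' → τ y = τ y') ∧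
    ∀ θ, D.Pos θ z ↔ τ (fun l => (θ l).T) ≠ 0 := by
  obtain ⟨g, hg⟩ := hz.gauge
  refine ⟨fun y => (g (pt y 0)).T, hg.good.T_cont, fun y => ?_, fun c hc y => ?_,
    fun y y' h => ?_, fun θ => ?_⟩
  · rcases H.one_le_iff.1 (hg.one_le (pt y 0)) with h | ⟨h, -⟩
    · exact h.le
    · exact h.ge
  · have h1 : pt (c • y) 0 = fun l => H.dil c (pt y 0 l) := by
      funext l
      apply H.ext'
      · simp
      · intro k
        simp
    show (g (pt (c • y) 0)).T = c * (g (pt y 0)).T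
    rw [h1, hg.good.dil c hc]
    rfl
  · show (g (pt y 0)).T = (g (pt y' 0)).T
    rw [hg.dep (pt y 0) (pt y' 0)]
    obtain ⟨h1, h2, h3⟩ := h
    exact ⟨by simp only [pt, h1], by simp only [pt, h2], by simp only [pt, h3]⟩
  · rw [pos_iff, hg.mem_M]
    show ¬ (g θ).T = 0 ↔ ¬ (g (pt (fun l => (θ l).T) 0)).T = 0
    rw [hg.good.T_eq θ (pt (fun l => (θ l).T) 0) fun l => rfl]

/-- Top level positivity at a real point. -/
def PosT (D : Data A) (y : Lt → ℝ) (z : A) : Prop := D.Pos (pt y 0) z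

lemma FE.pos_iff_posT (hz : D.FE F z) : D.Pos θ z ↔ D.PosT (fun l => (θ l).T) z := by
  obtain ⟨τ, -, -, -, -, h⟩ := hz.exists_tau
  unfold PosT
  rw [h, h]
  rfl

lemma FE.posT_congr (hz : D.FE F z) {y y' : Lt → ℝ} (h : Agree F y y') :
    D.PosT y z ↔ D.PosT y' z := by
  obtain ⟨τ, -, -, -, h1, h2⟩ := hz.exists_tau
  unfold PosT
  rw [h2, h2]
  show τ y ≠ 0 ↔ τ y' ≠ 0
  rw [h1 y y' h]

lemma FE.posT_smul (hz : D.FE F z) {y : Lt → ℝ} {c : ℝ} (hc : 0 < c) :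
    D.PosT (c • y) z ↔ D.PosT y z := by
  obtain ⟨τ, -, -, h1, -, h2⟩ := hz.exists_tau
  unfold PosT
  rw [h2, h2]
  show τ (c • y) ≠ 0 ↔ τ y ≠ 0
  rw [h1 c hc]
  simp [hc.ne']

/-- `z` is infinitesimal over the real point `y`. -/
def ZeroT (D : Data A) (y : Lt → ℝ) (z : A) : Prop := ¬ D.PosT y z ∧ ¬ D.PosT y z⁻¹

lemma ZeroT_iff {y : Lt → ℝ} : D.ZeroT y z ↔ z ∈ D.M (pt y 0) := mem_M_iff.symm

lemma FE.mem_M_of_ZeroT (hz : D.FE F z) (h : D.ZeroT (fun l => (θ l).T) z) : z ∈ D.M θ := by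
  rw [mem_M_iff, hz.pos_iff_posT, hz.inv.pos_iff_posT]
  exact h

lemma FE.mem_M_pt_iff (hz : D.FE F z) {y : Lt → ℝ} {β : Lt → ℝ → ℤ} :
    z ∈ D.M (pt y β) ↔ D.ZeroT y z := by
  rw [mem_M_iff, hz.pos_iff_posT, hz.inv.pos_iff_posT]
  rfl

lemma FE.zeroT_congr (hz : D.FE F z) {y y' : Lt → ℝ} (h : Agree F y y') :
    D.ZeroT y z ↔ D.ZeroT y' z := by
  unfold ZeroT
  rw [hz.posT_congr h, hz.inv.posT_congr h]

lemma FE.zeroT_smul (hz : D.FE F z) {y : Lt → ℝ} {c : ℝ} (hc : 0 < c) :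
    D.ZeroT (c • y) z ↔ D.ZeroT y z := by
  unfold ZeroT
  rw [hz.posT_smul hc, hz.inv.posT_smul hc]

/-- The threshold lemma. -/
lemma FE.threshold (hz : D.FE F z) (p : ℝ → Lt → ℝ) (hp : Continuous p)
    (h0 : D.PosT (p 0) z⁻¹) (h1 : ∃ T0 : ℝ, ∀ t, T0 ≤ t → D.PosT (p t) z) :
    ∃ t0 : ℝ, 0 < t0 ∧ D.ZeroT (p t0) z ∧ ∀ t, t0 < t → D.PosT (p t) z := by
  obtain ⟨τ, c1, -, -, -, e1⟩ := hz.exists_tau
  obtain ⟨τ', c2, -, -, -, e2⟩ := hz.inv.exists_tau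
  have E1 : ∀ t, D.PosT (p t) z ↔ τ (p t) ≠ 0 := fun t => e1 (pt (p t) 0)
  have E2 : ∀ t, D.PosT (p t) z⁻¹ ↔ τ' (p t) ≠ 0 := fun t => e2 (pt (p t) 0)
  obtain ⟨T0, hT0⟩ := h1
  set S : Set ℝ := {t | 0 ≤ t ∧ τ (p t) = 0} with hS
  have hcl : IsClosed S := by
    apply IsClosed.inter
    · exact isClosed_le continuous_const continuous_id
    · exact isClosed_eq (c1.comp hp) continuous_const
  have h0' : ¬ D.PosT (p 0) z := by
    intro h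
    exact h.not_pos_inv h0
  have h0S : (0 : ℝ) ∈ S := ⟨le_rfl, by
    by_contra h
    exact h0' ((E1 0).2 h)⟩
  have hbd : BddAbove S := ⟨T0, by
    rintro t ⟨-, ht⟩
    by_contra h
    push Not at h
    exact (E1 t).1 (hT0 t h.le) ht⟩
  have hmem : sSup S ∈ S := hcl.csSup_mem ⟨0, h0S⟩ hbd
  have hgt : ∀ t, sSup S < t → D.PosT (p t) z := by
    intro t ht
    rw [E1]
    intro h
    have : t ∈ S := ⟨hmem.1.trans ht.le, h⟩
    exact absurd (le_csSup hbd this) (not_le.2 ht)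
  have hz1 : ¬ D.PosT (p (sSup S)) z := by
    rw [E1]
    push Not
    exact hmem.2
  have hz2 : ¬ D.PosT (p (sSup S)) z⁻¹ := by
    rw [E2]
    intro h
    have hev : ∀ᶠ t in nhds (sSup S), τ' (p t) ≠ 0 :=
      (c2.comp hp).continuousAt.eventually_ne h
    obtain ⟨ε, hε, hball⟩ := Metric.eventually_nhds_iff.1 hev
    have h2 : τ' (p (sSup S + ε / 2)) ≠ 0 := by
      apply hball
      rw [Real.dist_eq]
      rw [abs_of_pos (by linarith)]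
      linarith
    exact (hgt _ (by linarith)).not_pos_inv ((E2 _).2 h2)
  refine ⟨sSup S, ?_, ⟨hz1, hz2⟩, hgt⟩
  rcases hmem.1.lt_or_eq with h | h
  · exact h
  · rw [← h] at hz2
    exact absurd h0 hz2

/-- Eventual positivity along a ray. -/
lemma FE.eventually (hz : D.FE F z) (y0 v : Lt → ℝ) (hv : D.PosT v z) :
    ∃ T0 : ℝ, 0 < T0 ∧ ∀ t, T0 ≤ t → D.PosT (y0 + t • v) z := by
  obtain ⟨τ, c1, -, -, -, e1⟩ := hz.exists_tau
  have E1 : ∀ y, D.PosT y z ↔ τ y ≠ 0 := fun y => e1 (pt y 0)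
  have hc : Continuous fun s : ℝ => τ (s • y0 + v) := by
    apply c1.comp
    fun_prop
  have h0 : τ ((0 : ℝ) • y0 + v) ≠ 0 := by
    rw [zero_smul, zero_add]
    exact (E1 v).1 hv
  obtain ⟨ε, hε, hball⟩ := Metric.eventually_nhds_iff.1 (hc.continuousAt.eventually_ne h0)
  refine ⟨2 / ε, by positivity, fun t ht => ?_⟩
  have ht0 : 0 < t := lt_of_lt_of_le (by positivity) ht
  have h1 : τ (t⁻¹ • y0 + v) ≠ 0 := by
    apply hball
    rw [Real.dist_eq, sub_zero, abs_of_pos (by positivity)]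
    rw [div_le_iff₀ hε] at ht
    rw [inv_lt_iff_one_lt_mul₀ ht0]
    linarith
  have h2 : y0 + t • v = t • (t⁻¹ • y0 + v) := by
    rw [smul_add, smul_smul, mul_inv_cancel₀ ht0.ne', one_smul]
  rw [h2, hz.posT_smul ht0, E1]
  exact h1

/-- Positivity is open. -/
lemma FE.nearby (hz : D.FE F z) (y0 v : Lt → ℝ) (hv : D.PosT y0 z) :
    ∃ δ : ℝ, 0 < δ ∧ ∀ t, 0 ≤ t → t < δ → D.PosT (y0 + t • v) z := by
  obtain ⟨τ, c1, -, -, -, e1⟩ := hz.exists_tau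
  have E1 : ∀ y, D.PosT y z ↔ τ y ≠ 0 := fun y => e1 (pt y 0)
  have hc : Continuous fun s : ℝ => τ (y0 + s • v) := by
    apply c1.comp
    fun_prop
  have h0 : τ (y0 + (0 : ℝ) • v) ≠ 0 := by
    rw [zero_smul, add_zero]
    exact (E1 y0).1 hv
  obtain ⟨ε, hε, hball⟩ := Metric.eventually_nhds_iff.1 (hc.continuousAt.eventually_ne h0)
  refine ⟨ε, hε, fun t ht ht' => ?_⟩
  rw [E1]
  apply hball
  rwa [Real.dist_eq, sub_zero, abs_of_nonneg ht]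

end Data

end Pool.Agent.Helper455.NV
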