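import Mathlib

/-!
A set mapping with countable values on triples has a free set of size four, if the underlying set
is large enough.
-/

namespace Pool.Agent.Helper455.NV

lemma avoid {X Ω : Type} (E : X → Set Ω) (hE : ∀ x, (E x).Countable)
    (j : Set (X × ℕ) → Ω) (hj : Function.Injective j) : ∃ y, ∀ x, j y ∉ E x := by
  by_contra hcon
  push Not at hcon
  choose xs hxs using hcon
  choose f hf using fun x => Set.countable_iff_exists_injOn.1 (hE x)
  have hinj : Function.Injective fun y : Set (X × ℕ) => (xs y, f (xs y) (j y)) := by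
    intro y y' h
    simp only [Prod.mk.injEq] at h
    obtain ⟨h1, h2⟩ := h
    rw [h1] at h2
    apply hj
    exact hf (xs y') (h1 ▸ hxs y) (hxs y') h2
  exact Function.cantor_injective _ hinj

/-- The first layer of indices. -/
abbrev O1 : Type := Set (Unit × ℕ)
/-- The second layer of indices. -/
abbrev O2 : Type := Set (O1 × ℕ)
/-- The third layer of indices. -/
abbrev O3 : Type := Set ((O1 × O2) × ℕ)
/-- The fourth layer of indices. -/
abbrev O4 : Type := Set ((O1 × O2 × O3) × ℕ)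

/-- The set of indices. -/
inductive Om : Type
  | o1 : O1 → Om
  | o2 : O2 → Om
  | o3 : O3 → Om
  | o4 : O4 → Om

open Om

theorem quad (E : Om → Om → Om → Set Om) (hE : ∀ s t u, (E s t u).Countable) :
    ∃ s1 s2 s3 s4 : Om, (s1 ≠ s2 ∧ s1 ≠ s3 ∧ s1 ≠ s4 ∧ s2 ≠ s3 ∧ s2 ≠ s4 ∧ s3 ≠ s4) ∧
      s4 ∉ E s1 s2 s3 ∧ s3 ∉ E s1 s2 s4 ∧ s2 ∉ E s1 s3 s4 ∧ s1 ∉ E s2 s3 s4 := by
  obtain ⟨y4, h4⟩ := avoid (fun x : O1 × O2 × O3 => E (o1 x.1) (o2 x.2.1) (o3 x.2.2))
    (fun x => hE _ _ _) o4 (fun _ _ h => by simpa using h)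
  obtain ⟨y3, h3⟩ := avoid (fun x : O1 × O2 => E (o1 x.1) (o2 x.2) (o4 y4))
    (fun x => hE _ _ _) o3 (fun _ _ h => by simpa using h)
  obtain ⟨y2, h2⟩ := avoid (fun x : O1 => E (o1 x) (o3 y3) (o4 y4))
    (fun x => hE _ _ _) o2 (fun _ _ h => by simpa using h)
  obtain ⟨y1, h1⟩ := avoid (fun _ : Unit => E (o2 y2) (o3 y3) (o4 y4))
    (fun x => hE _ _ _) o1 (fun _ _ h => by simpa using h)
  refine ⟨o1 y1, o2 y2, o3 y3, o4 y4, ⟨?_, ?_, ?_, ?_, ?_, ?_⟩,
    h4 (y1, y2, y3), h3 (y1, y2), h2 y1, h1 ()⟩ <;> simp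

end Pool.Agent.Helper455.NV
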