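import Pool.Agent.Helper455.NV.H

/-!
Good functions `(L → H) → H`: they form a group and a lattice under pointwise operations.
-/

namespace Pool.Agent.Helper455.NV

open H

variable {L : Type}

/-- The family of elements of `H` with given components. -/
def pt (y : L → ℝ) (β : L → ℝ → ℤ) : L → H := fun l => ⟨y l, β l⟩

@[simp] lemma pt_T (y : L → ℝ) (β : L → ℝ → ℤ) (l : L) : (pt y β l).T = y l := rfl
@[simp] lemma pt_B (y : L → ℝ) (β : L → ℝ → ℤ) (l : L) : (pt y β l).B = β l := rfl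

open Classical in
/-- Increase one coordinate. -/
noncomputable def bump (l0 : L) (ε : ℝ) (y : L → ℝ) : L → ℝ :=
  fun l => if l = l0 then y l + ε else y l

open Classical in
/-- The constant function `n` at one coordinate. -/
noncomputable def cst (l0 : L) (n : ℤ) : L → ℝ → ℤ := fun l _ => if l = l0 then n else 0

/-- Good functions. -/
structure Good (g : (L → H) → H) : Prop where
  T_eq : ∀ θ θ' : L → H, (∀ l, (θ l).T = (θ' l).T) → (g θ).T = (g θ').T
  T_cont : Continuous fun y : L → ℝ => (g (pt y 0)).T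
  dil : ∀ c : ℝ, 0 < c → ∀ θ : L → H, g (fun l => H.dil c (θ l)) = H.dil c (g θ)
  conj : ∀ (κ : ℝ → ℤ) (θ : L → H), g (fun l => H.conj κ (θ l)) = H.conj κ (g θ)
  loc : ∀ (y : L → ℝ) (k : ℝ), ∃ Z : Finset ℝ, ∀ β β' : L → ℝ → ℤ,
    (∀ l, ∀ z ∈ Z, β l z = β' l z) → (g (pt y β)).B k = (g (pt y β')).B k
  dir : ∀ (y : L → ℝ) (l0 : L), ∃ c : ℝ,
    (∃ ε0 > 0, ∀ ε : ℝ, 0 ≤ ε → ε < ε0 →
      (g (pt (bump l0 ε y) 0)).T = (g (pt y 0)).T + c * ε) ∧
    ∀ k : ℝ, ∃ C : ℝ, ∀ n : ℕ, |((g (pt y (cst l0 n))).B k : ℝ) - c * n| ≤ C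

lemma Good.T_pt {g : (L → H) → H} (hg : Good g) (y : L → ℝ) (β β' : L → ℝ → ℤ) :
    (g (pt y β)).T = (g (pt y β')).T :=
  hg.T_eq _ _ fun _ => rfl

lemma good_one : Good (1 : (L → H) → H) where
  T_eq := fun _ _ _ => rfl
  T_cont := continuous_const
  dil := fun c _ _ => (H.dil_one c).symm
  conj := fun κ _ => (H.conj_one κ).symm
  loc := fun _ _ => ⟨∅, fun _ _ _ => rfl⟩
  dir := fun _ _ => ⟨0, ⟨1, one_pos, fun ε _ _ => by simp⟩, fun k => ⟨0, fun n => by simp⟩⟩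

lemma good_mul {g h : (L → H) → H} (hg : Good g) (hh : Good h) : Good (g * h) where
  T_eq := fun θ θ' e => by
    simp only [Pi.mul_apply, mul_T, hg.T_eq θ θ' e, hh.T_eq θ θ' e]
  T_cont := hg.T_cont.add hh.T_cont
  dil := fun c hc θ => by
    simp only [Pi.mul_apply, hg.dil c hc, hh.dil c hc, H.dil_mul hc]
  conj := fun κ θ => by
    simp only [Pi.mul_apply, hg.conj, hh.conj, H.conj_mul]
  loc := fun y k => by
    obtain ⟨Z1, h1⟩ := hg.loc y (k + (h (pt y 0)).T)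
    obtain ⟨Z2, h2⟩ := hh.loc y k
    refine ⟨Z1 ∪ Z2, fun β β' e => ?_⟩
    simp only [Pi.mul_apply, mul_B]
    rw [hh.T_pt y β 0, hh.T_pt y β' 0,
      h1 β β' fun l z hz => e l z (Finset.mem_union_left _ hz),
      h2 β β' fun l z hz => e l z (Finset.mem_union_right _ hz)]
  dir := fun y l0 => by
    obtain ⟨c1, ⟨ε1, hε1, h1⟩, h1'⟩ := hg.dir y l0
    obtain ⟨c2, ⟨ε2, hε2, h2⟩, h2'⟩ := hh.dir y l0
    refine ⟨c1 + c2, ⟨min ε1 ε2, lt_min hε1 hε2, fun ε he he' => ?_⟩, fun k => ?_⟩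
    · simp only [Pi.mul_apply, mul_T]
      rw [h1 ε he (he'.trans_le (min_le_left _ _)), h2 ε he (he'.trans_le (min_le_right _ _))]
      ring
    · obtain ⟨C1, hC1⟩ := h1' (k + (h (pt y 0)).T)
      obtain ⟨C2, hC2⟩ := h2' k
      refine ⟨C1 + C2, fun n => ?_⟩
      simp only [Pi.mul_apply, mul_B]
      rw [hh.T_pt y _ 0]
      push_cast
      have e : ((g (pt y (cst l0 n))).B (k + (h (pt y 0)).T) : ℝ) +
          ((h (pt y (cst l0 n))).B k : ℝ) - (c1 + c2) * n =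
          (((g (pt y (cst l0 n))).B (k + (h (pt y 0)).T) : ℝ) - c1 * n) +
          (((h (pt y (cst l0 n))).B k : ℝ) - c2 * n) := by ring
      rw [e]
      exact (abs_add_le _ _).trans (add_le_add (hC1 n) (hC2 n))

lemma good_inv {g : (L → H) → H} (hg : Good g) : Good g⁻¹ where
  T_eq := fun θ θ' e => by
    simp only [Pi.inv_apply, inv_T, hg.T_eq θ θ' e]
  T_cont := hg.T_cont.neg
  dil := fun c hc θ => by
    simp only [Pi.inv_apply, hg.dil c hc, H.dil_inv hc]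
  conj := fun κ θ => by
    simp only [Pi.inv_apply, hg.conj, H.conj_inv]
  loc := fun y k => by
    obtain ⟨Z1, h1⟩ := hg.loc y (k - (g (pt y 0)).T)
    refine ⟨Z1, fun β β' e => ?_⟩
    simp only [Pi.inv_apply, inv_B]
    rw [hg.T_pt y β 0, hg.T_pt y β' 0, h1 β β' e]
  dir := fun y l0 => by
    obtain ⟨c1, ⟨ε1, hε1, h1⟩, h1'⟩ := hg.dir y l0
    refine ⟨-c1, ⟨ε1, hε1, fun ε he he' => ?_⟩, fun k => ?_⟩
    · simp only [Pi.inv_apply, inv_T]
      rw [h1 ε he he']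
      ring
    · obtain ⟨C1, hC1⟩ := h1' (k - (g (pt y 0)).T)
      refine ⟨C1, fun n => ?_⟩
      simp only [Pi.inv_apply, inv_B]
      rw [hg.T_pt y _ 0]
      push_cast
      have e : -((g (pt y (cst l0 n))).B (k - (g (pt y 0)).T) : ℝ) - -c1 * n =
          -(((g (pt y (cst l0 n))).B (k - (g (pt y 0)).T) : ℝ) - c1 * n) := by ring
      rw [e, abs_neg]
      exact hC1 n

lemma good_sup {g h : (L → H) → H} (hg : Good g) (hh : Good h) : Good (g ⊔ h) where
  T_eq := fun θ θ' e => by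
    simp only [Pi.sup_apply, sup_T, hg.T_eq θ θ' e, hh.T_eq θ θ' e]
  T_cont := by
    have : (fun y : L → ℝ => ((g ⊔ h) (pt y 0)).T) =
        fun y => max ((g (pt y 0)).T) ((h (pt y 0)).T) := by
      funext y
      simp only [Pi.sup_apply, sup_T]
    rw [this]
    exact hg.T_cont.max hh.T_cont
  dil := fun c hc θ => by
    simp only [Pi.sup_apply, hg.dil c hc, hh.dil c hc, H.dil_sup hc]
  conj := fun κ θ => by
    simp only [Pi.sup_apply, hg.conj, hh.conj, H.conj_sup]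
  loc := fun y k => by
    obtain ⟨Z1, h1⟩ := hg.loc y k
    obtain ⟨Z2, h2⟩ := hh.loc y k
    refine ⟨Z1 ∪ Z2, fun β β' e => ?_⟩
    have e1 := h1 β β' fun l z hz => e l z (Finset.mem_union_left _ hz)
    have e2 := h2 β β' fun l z hz => e l z (Finset.mem_union_right _ hz)
    simp only [Pi.sup_apply]
    rcases lt_trichotomy (g (pt y 0)).T (h (pt y 0)).T with H1 | H1 | H1
    · rw [sup_B_of_lt (by rwa [hg.T_pt y β 0, hh.T_pt y β 0]),
        sup_B_of_lt (by rwa [hg.T_pt y β' 0, hh.T_pt y β' 0]), e2]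
    · rw [sup_B_of_eq (by rwa [hg.T_pt y β 0, hh.T_pt y β 0]),
        sup_B_of_eq (by rwa [hg.T_pt y β' 0, hh.T_pt y β' 0]), e1, e2]
    · rw [sup_B_of_gt (by rwa [hg.T_pt y β 0, hh.T_pt y β 0]),
        sup_B_of_gt (by rwa [hg.T_pt y β' 0, hh.T_pt y β' 0]), e1]
  dir := fun y l0 => by
    obtain ⟨c1, ⟨ε1, hε1, h1⟩, h1'⟩ := hg.dir y l0
    obtain ⟨c2, ⟨ε2, hε2, h2⟩, h2'⟩ := hh.dir y l0
    rcases lt_trichotomy (g (pt y 0)).T (h (pt y 0)).T with H1 | H1 | H1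
    · obtain ⟨δ, hδ, hδ'⟩ : ∃ δ > 0, ∀ ε, 0 ≤ ε → ε < δ →
          (g (pt y 0)).T + c1 * ε < (h (pt y 0)).T + c2 * ε := by
        refine ⟨((h (pt y 0)).T - (g (pt y 0)).T) / (|c1 - c2| + 1), by
          apply div_pos (sub_pos.2 H1); positivity, fun ε he he' => ?_⟩
        rw [lt_div_iff₀ (by positivity)] at he'
        have h3 : (c1 - c2) * ε ≤ |c1 - c2| * ε :=
          mul_le_mul_of_nonneg_right (le_abs_self _) he
        nlinarith
      refine ⟨c2, ⟨min (min ε1 ε2) δ, lt_min (lt_min hε1 hε2) hδ, fun ε he he' => ?_⟩,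
        fun k => ?_⟩
      · have g1 := h1 ε he (he'.trans_le ((min_le_left _ _).trans (min_le_left _ _)))
        have g2 := h2 ε he (he'.trans_le ((min_le_left _ _).trans (min_le_right _ _)))
        have g3 := hδ' ε he (he'.trans_le (min_le_right _ _))
        simp only [Pi.sup_apply, sup_T]
        rw [max_eq_right (by rw [g1, g2]; exact g3.le), max_eq_right H1.le, g2]
      · obtain ⟨C2, hC2⟩ := h2' k
        refine ⟨C2, fun n => ?_⟩
        simp only [Pi.sup_apply]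
        rw [sup_B_of_lt (by rwa [hg.T_pt y _ 0, hh.T_pt y _ 0])]
        exact hC2 n
    · refine ⟨max c1 c2, ⟨min ε1 ε2, lt_min hε1 hε2, fun ε he he' => ?_⟩, fun k => ?_⟩
      · have g1 := h1 ε he (he'.trans_le (min_le_left _ _))
        have g2 := h2 ε he (he'.trans_le (min_le_right _ _))
        simp only [Pi.sup_apply, sup_T]
        rw [g1, g2, H1, max_self, max_add_add_left, max_mul_of_nonneg _ _ he]
      · obtain ⟨C1, hC1⟩ := h1' k
        obtain ⟨C2, hC2⟩ := h2' k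
        refine ⟨max C1 C2, fun n => ?_⟩
        simp only [Pi.sup_apply]
        rw [sup_B_of_eq (by rwa [hg.T_pt y _ 0, hh.T_pt y _ 0]),
          max_mul_of_nonneg _ _ (Nat.cast_nonneg n)]
        push_cast
        exact (abs_max_sub_max_le_max _ _ _ _).trans (max_le_max (hC1 n) (hC2 n))
    · obtain ⟨δ, hδ, hδ'⟩ : ∃ δ > 0, ∀ ε, 0 ≤ ε → ε < δ →
          (h (pt y 0)).T + c2 * ε < (g (pt y 0)).T + c1 * ε := by
        refine ⟨((g (pt y 0)).T - (h (pt y 0)).T) / (|c2 - c1| + 1), by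
          apply div_pos (sub_pos.2 H1); positivity, fun ε he he' => ?_⟩
        rw [lt_div_iff₀ (by positivity)] at he'
        have h3 : (c2 - c1) * ε ≤ |c2 - c1| * ε :=
          mul_le_mul_of_nonneg_right (le_abs_self _) he
        nlinarith
      refine ⟨c1, ⟨min (min ε1 ε2) δ, lt_min (lt_min hε1 hε2) hδ, fun ε he he' => ?_⟩,
        fun k => ?_⟩
      · have g1 := h1 ε he (he'.trans_le ((min_le_left _ _).trans (min_le_left _ _)))
        have g2 := h2 ε he (he'.trans_le ((min_le_left _ _).trans (min_le_right _ _)))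
        have g3 := hδ' ε he (he'.trans_le (min_le_right _ _))
        simp only [Pi.sup_apply, sup_T]
        rw [max_eq_left (by rw [g1, g2]; exact g3.le), max_eq_left H1.le, g1]
      · obtain ⟨C1, hC1⟩ := h1' k
        refine ⟨C1, fun n => ?_⟩
        simp only [Pi.sup_apply]
        rw [sup_B_of_gt (by rwa [hg.T_pt y _ 0, hh.T_pt y _ 0])]
        exact hC1 n

/-- The coordinate functions are good. -/
lemma good_coord (l : L) : Good (fun θ : L → H => θ l) where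
  T_eq := fun _ _ e => e l
  T_cont := continuous_apply l
  dil := fun _ _ _ => rfl
  conj := fun _ _ => rfl
  loc := fun _ k => ⟨{k}, fun _ _ e => e l k (Finset.mem_singleton_self _)⟩
  dir := fun y l0 => by
    by_cases h : l = l0
    · refine ⟨1, ⟨1, one_pos, fun ε _ _ => ?_⟩, fun k => ⟨0, fun n => ?_⟩⟩
      · simp [bump, h]
      · simp [cst, h]
    · refine ⟨0, ⟨1, one_pos, fun ε _ _ => ?_⟩, fun k => ⟨0, fun n => ?_⟩⟩
      · simp [bump, h]
      · simp [cst, h]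

open Classical in
/-- The element `b`, the unit mass at the position `0`. -/
noncomputable def bH : H := ⟨0, fun k => if k = 0 then 1 else 0⟩

lemma one_le_bH : 1 ≤ bH := by
  refine Or.inr ⟨rfl, fun k => ?_⟩
  show (0 : ℤ) ≤ if k = 0 then 1 else 0
  split_ifs <;> norm_num

lemma dil_bH {c : ℝ} (hc : 0 < c) : H.dil c bH = bH := by
  apply H.ext'
  · simp [bH]
  · intro k
    simp [bH, hc.ne']

lemma conj_bH (κ : ℝ → ℤ) : H.conj κ bH = bH := by
  apply H.ext'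
  · simp [bH]
  · intro k
    simp [bH]

lemma good_b : Good (fun _ : L → H => bH) where
  T_eq := fun _ _ _ => rfl
  T_cont := continuous_const
  dil := fun _ hc _ => (dil_bH hc).symm
  conj := fun κ _ => (conj_bH κ).symm
  loc := fun _ _ => ⟨∅, fun _ _ _ => rfl⟩
  dir := fun _ _ => ⟨0, ⟨1, one_pos, fun ε _ _ => by simp⟩,
    fun k => ⟨|(bH.B k : ℝ)|, fun n => by simp⟩⟩

/-- Finite dependency. -/
def FinDep (g : (L → H) → H) : Prop :=
  ∃ D : Finset L, ∀ θ θ' : L → H, (∀ l ∈ D, θ l = θ' l) → g θ = g θ'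

variable (L) in
/-- The group of good functions with finite dependency. -/
def GG : Subgroup ((L → H) → H) where
  carrier := {g | Good g ∧ FinDep g}
  one_mem' := ⟨good_one, ∅, fun _ _ _ => rfl⟩
  mul_mem' := by
    classical
    rintro g h ⟨hg, D, hD⟩ ⟨hh, E, hE⟩
    refine ⟨good_mul hg hh, D ∪ E, fun θ θ' e => ?_⟩
    simp only [Pi.mul_apply]
    rw [hD θ θ' fun l hl => e l (Finset.mem_union_left _ hl),
      hE θ θ' fun l hl => e l (Finset.mem_union_right _ hl)]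
  inv_mem' := by
    rintro g ⟨hg, D, hD⟩
    refine ⟨good_inv hg, D, fun θ θ' e => ?_⟩
    simp only [Pi.inv_apply]
    rw [hD θ θ' e]

lemma GG_sup {g h : (L → H) → H} (hg : g ∈ GG L) (hh : h ∈ GG L) : g ⊔ h ∈ GG L := by
  classical
  obtain ⟨hg, D, hD⟩ := hg
  obtain ⟨hh, E, hE⟩ := hh
  refine ⟨good_sup hg hh, D ∪ E, fun θ θ' e => ?_⟩
  simp only [Pi.sup_apply]
  rw [hD θ θ' fun l hl => e l (Finset.mem_union_left _ hl),
    hE θ θ' fun l hl => e l (Finset.mem_union_right _ hl)]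

instance : MulLeftMono ((L → H) → H) :=
  ⟨fun a _ _ h θ => mul_le_mul_right (h θ) (a θ)⟩

instance : MulRightMono ((L → H) → H) :=
  ⟨fun a _ _ h θ => mul_le_mul_left (h θ) (a θ)⟩

lemma GG_inf {g h : (L → H) → H} (hg : g ∈ GG L) (hh : h ∈ GG L) : g ⊓ h ∈ GG L := by
  have e : g ⊓ h = (g⁻¹ ⊔ h⁻¹)⁻¹ := by
    rw [inv_sup, inv_inv, inv_inv]
  rw [e]
  exact (GG L).inv_mem (GG_sup ((GG L).inv_mem hg) ((GG L).inv_mem hh))

noncomputable instance instLatticeGG : Lattice (GG L) where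
  sup := fun g h => ⟨g.1 ⊔ h.1, GG_sup g.2 h.2⟩
  inf := fun g h => ⟨g.1 ⊓ h.1, GG_inf g.2 h.2⟩
  le_sup_left g h := by
    show g.1 ≤ g.1 ⊔ h.1
    exact le_sup_left
  le_sup_right g h := by
    show h.1 ≤ g.1 ⊔ h.1
    exact le_sup_right
  sup_le g h k h1 h2 := by
    show g.1 ⊔ h.1 ≤ k.1
    exact sup_le h1 h2
  inf_le_left g h := by
    show g.1 ⊓ h.1 ≤ g.1
    exact inf_le_left
  inf_le_right g h := by
    show g.1 ⊓ h.1 ≤ h.1
    exact inf_le_right
  le_inf g h k h1 h2 := by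
    show g.1 ≤ h.1 ⊓ k.1
    exact le_inf h1 h2

lemma GG_le_iff {g h : GG L} : g ≤ h ↔ ∀ θ, g.1 θ ≤ h.1 θ := Iff.rfl

lemma GG_sup_apply (g h : GG L) (θ : L → H) : (g ⊔ h).1 θ = g.1 θ ⊔ h.1 θ := rfl

lemma GG_inf_apply (g h : GG L) (θ : L → H) : (g ⊓ h).1 θ = g.1 θ ⊓ h.1 θ := rfl

lemma GG_mul_apply (g h : GG L) (θ : L → H) : (g * h).1 θ = g.1 θ * h.1 θ := rfl

lemma GG_inv_apply (g : GG L) (θ : L → H) : (g⁻¹).1 θ = (g.1 θ)⁻¹ := rfl

lemma GG_one_apply (θ : L → H) : (1 : GG L).1 θ = 1 := rfl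

lemma GG_pow_apply (g : GG L) (n : ℕ) (θ : L → H) : (g ^ n).1 θ = g.1 θ ^ n := rfl

instance instMulLeftMonoGG : MulLeftMono (GG L) :=
  ⟨fun a _ _ h θ => mul_le_mul_right (h θ) (a.1 θ)⟩

instance instMulRightMonoGG : MulRightMono (GG L) :=
  ⟨fun a _ _ h θ => mul_le_mul_left (h θ) (a.1 θ)⟩

lemma GG_normal_valued (a b : GG L) (ha : 1 ≤ a) (hb : 1 ≤ b) : a * b ≤ b ^ 2 * a ^ 2 :=
  fun θ => H.normal_valued (ha θ) (hb θ)

/-- The coordinate elements. -/
def coord (l : L) : GG L :=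
  ⟨fun θ => θ l, good_coord l, {l}, fun _ _ e => e l (Finset.mem_singleton_self _)⟩

/-- The element `b`. -/
noncomputable def bG : GG L := ⟨fun _ => bH, good_b, ∅, fun _ _ _ => rfl⟩

lemma one_le_bG : (1 : GG L) ≤ bG := fun _ => one_le_bH

lemma H.one_le_iff {x : H} : 1 ≤ x ↔ 0 < x.T ∨ (x.T = 0 ∧ ∀ k, 0 ≤ x.B k) := by
  rw [H.le_def]
  constructor
  · rintro (h | ⟨h, h'⟩)
    · exact Or.inl h
    · exact Or.inr ⟨h.symm, h'⟩
  · rintro (h | ⟨h, h'⟩)
    · exact Or.inl h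
    · exact Or.inr ⟨h.symm, h'⟩

end Pool.Agent.Helper455.NV
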