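import Mathlib

/-!
The lattice-ordered group `H = ℝ ⋉ (ℝ → ℤ)`: the unrestricted wreath product of `ℤ` by the real
line acting on itself by translations, ordered lexicographically with the top group first.
-/

namespace Pool.Agent.Helper455.NV

/-- Pairs of a real number and an integer valued function on the real line. -/
@[ext]
structure H : Type where
  T : ℝ
  B : ℝ → ℤ

namespace H

instance : One H := ⟨⟨0, 0⟩⟩
instance : Mul H := ⟨fun x y => ⟨x.T + y.T, fun k => x.B (k + y.T) + y.B k⟩⟩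
instance : Inv H := ⟨fun x => ⟨-x.T, fun k => -x.B (k - x.T)⟩⟩

@[simp] lemma one_T : (1 : H).T = 0 := rfl
@[simp] lemma one_B (k : ℝ) : (1 : H).B k = 0 := rfl
@[simp] lemma mul_T (x y : H) : (x * y).T = x.T + y.T := rfl
@[simp] lemma mul_B (x y : H) (k : ℝ) : (x * y).B k = x.B (k + y.T) + y.B k := rfl
@[simp] lemma inv_T (x : H) : (x⁻¹).T = -x.T := rfl
@[simp] lemma inv_B (x : H) (k : ℝ) : (x⁻¹).B k = -x.B (k - x.T) := rfl

lemma ext' {x y : H} (h1 : x.T = y.T) (h2 : ∀ k, x.B k = y.B k) : x = y :=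
  H.ext h1 (funext h2)

instance : Group H :=
  Group.ofLeftAxioms
    (by
      intro a b c
      apply ext'
      · simp [add_assoc]
      · intro k
        simp only [mul_B, mul_T]
        rw [add_assoc, add_assoc, add_comm c.T b.T])
    (by
      intro a
      apply ext'
      · simp
      · intro k
        simp)
    (by
      intro a
      apply ext'
      · simp
      · intro k
        simp)

open Classical in
noncomputable instance : Max H :=
  ⟨fun x y => if x.T < y.T then y else if y.T < x.T then x else ⟨x.T, x.B ⊔ y.B⟩⟩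

open Classical in
noncomputable instance : Min H :=
  ⟨fun x y => if x.T < y.T then x else if y.T < x.T then y else ⟨x.T, x.B ⊓ y.B⟩⟩

instance : LE H := ⟨fun x y => x.T < y.T ∨ (x.T = y.T ∧ x.B ≤ y.B)⟩

lemma le_def {x y : H} : x ≤ y ↔ x.T < y.T ∨ (x.T = y.T ∧ ∀ k, x.B k ≤ y.B k) := Iff.rfl

instance : PartialOrder H where
  le_refl x := Or.inr ⟨rfl, le_rfl⟩
  le_trans x y z := by
    rintro (h1 | ⟨h1, h2⟩) (h3 | ⟨h3, h4⟩)
    · exact Or.inl (h1.trans h3)
    · exact Or.inl (h3 ▸ h1)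
    · exact Or.inl (h1 ▸ h3)
    · exact Or.inr ⟨h1.trans h3, h2.trans h4⟩
  le_antisymm x y := by
    rintro (h1 | ⟨h1, h2⟩) (h3 | ⟨h3, h4⟩)
    · exact absurd h3 h1.asymm
    · exact absurd h1 (by rw [h3]; exact lt_irrefl _)
    · exact absurd h3 (by rw [h1]; exact lt_irrefl _)
    · exact H.ext h1 (le_antisymm h2 h4)

lemma sup_def (x y : H) : x ⊔ y =
    if x.T < y.T then y else if y.T < x.T then x else ⟨x.T, x.B ⊔ y.B⟩ := rfl

lemma inf_def (x y : H) : x ⊓ y =
    if x.T < y.T then x else if y.T < x.T then y else ⟨x.T, x.B ⊓ y.B⟩ := rfl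

noncomputable instance : Lattice H where
  sup := fun x y => x ⊔ y
  inf := fun x y => x ⊓ y
  le_sup_left x y := by
    show x ≤ x ⊔ y
    rw [sup_def]
    split_ifs with h1 h2
    · exact Or.inl h1
    · exact le_rfl
    · exact Or.inr ⟨rfl, le_sup_left⟩
  le_sup_right x y := by
    show y ≤ x ⊔ y
    rw [sup_def]
    split_ifs with h1 h2
    · exact le_rfl
    · exact Or.inl h2
    · exact Or.inr ⟨le_antisymm (not_lt.1 h1) (not_lt.1 h2), le_sup_right⟩
  sup_le x y z := by
    intro h1 h2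
    show x ⊔ y ≤ z
    rw [sup_def]
    split_ifs with h3 h4
    · exact h2
    · exact h1
    · have hxy : x.T = y.T := le_antisymm (not_lt.1 h4) (not_lt.1 h3)
      rcases h1 with h1 | ⟨h1, h5⟩
      · exact Or.inl h1
      · rcases h2 with h2 | ⟨h2, h6⟩
        · exact Or.inl (by show x.T < z.T; rw [hxy]; exact h2)
        · exact Or.inr ⟨h1, sup_le h5 h6⟩
  inf_le_left x y := by
    show x ⊓ y ≤ x
    rw [inf_def]
    split_ifs with h1 h2
    · exact le_rfl
    · exact Or.inl h2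
    · exact Or.inr ⟨rfl, inf_le_left⟩
  inf_le_right x y := by
    show x ⊓ y ≤ y
    rw [inf_def]
    split_ifs with h1 h2
    · exact Or.inl h1
    · exact le_rfl
    · exact Or.inr ⟨le_antisymm (not_lt.1 h2) (not_lt.1 h1), inf_le_right⟩
  le_inf x y z := by
    intro h1 h2
    show x ≤ y ⊓ z
    rw [inf_def]
    split_ifs with h3 h4
    · exact h1
    · exact h2
    · have hyz : y.T = z.T := le_antisymm (not_lt.1 h4) (not_lt.1 h3)
      rcases h1 with h1 | ⟨h1, h5⟩
      · exact Or.inl h1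
      · rcases h2 with h2 | ⟨h2, h6⟩
        · exact Or.inl (by show x.T < y.T; rw [hyz]; exact h2)
        · exact Or.inr ⟨h1, le_inf h5 h6⟩

instance : MulLeftMono H := ⟨by
  intro a x y h
  show a * x ≤ a * y
  rcases h with h | ⟨h, h'⟩
  · exact Or.inl (by simpa using h)
  · refine Or.inr ⟨by simp [h], fun k => ?_⟩
    show a.B (k + x.T) + x.B k ≤ a.B (k + y.T) + y.B k
    rw [h]
    exact add_le_add le_rfl (h' k)⟩

instance : MulRightMono H := ⟨by
  intro a x y h
  show x * a ≤ y * a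
  rcases h with h | ⟨h, h'⟩
  · exact Or.inl (by simpa using h)
  · refine Or.inr ⟨by simp [h], fun k => ?_⟩
    show x.B (k + a.T) + a.B k ≤ y.B (k + a.T) + a.B k
    exact add_le_add (h' _) le_rfl⟩

lemma sup_T (x y : H) : (x ⊔ y).T = max x.T y.T := by
  rw [sup_def]
  split_ifs with h1 h2
  · exact (max_eq_right h1.le).symm
  · exact (max_eq_left h2.le).symm
  · exact (max_eq_left (not_lt.1 h1)).symm

lemma sup_B_of_lt {x y : H} (h : x.T < y.T) (k : ℝ) : (x ⊔ y).B k = y.B k := by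
  rw [sup_def, if_pos h]

lemma sup_B_of_gt {x y : H} (h : y.T < x.T) (k : ℝ) : (x ⊔ y).B k = x.B k := by
  rw [sup_def, if_neg h.asymm, if_pos h]

lemma sup_B_of_eq {x y : H} (h : x.T = y.T) (k : ℝ) : (x ⊔ y).B k = max (x.B k) (y.B k) := by
  rw [sup_def, if_neg (by rw [h]; exact lt_irrefl _), if_neg (by rw [h]; exact lt_irrefl _)]
  rfl

/-- Normal valuedness. -/
lemma normal_valued {a b : H} (ha : 1 ≤ a) (hb : 1 ≤ b) : a * b ≤ b ^ 2 * a ^ 2 := by
  have ha0 : 0 ≤ a.T := by
    rcases ha with h | ⟨h, -⟩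
    · exact le_of_lt h
    · exact le_of_eq h
  have hb0 : 0 ≤ b.T := by
    rcases hb with h | ⟨h, -⟩
    · exact le_of_lt h
    · exact le_of_eq h
  by_cases h : 0 < a.T + b.T
  · refine Or.inl ?_
    simp only [pow_two, mul_T]
    linarith
  · have ha1 : a.T = 0 := by linarith
    have hb1 : b.T = 0 := by linarith
    have ha2 : ∀ k, 0 ≤ a.B k := by
      rcases ha with h | ⟨-, h⟩
      · exact absurd h (by rw [ha1]; exact lt_irrefl _)
      · exact h
    have hb2 : ∀ k, 0 ≤ b.B k := by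
      rcases hb with h | ⟨-, h⟩
      · exact absurd h (by rw [hb1]; exact lt_irrefl _)
      · exact h
    refine Or.inr ⟨?_, fun k => ?_⟩
    · simp [pow_two, ha1, hb1]
    · have h1 := ha2 k
      have h2 := hb2 k
      simp only [pow_two, mul_B, mul_T, ha1, hb1, add_zero]
      linarith

/-- Dilation. -/
noncomputable def dil (c : ℝ) (x : H) : H := ⟨c * x.T, fun k => x.B (k / c)⟩

@[simp] lemma dil_T (c : ℝ) (x : H) : (dil c x).T = c * x.T := rfl
@[simp] lemma dil_B (c : ℝ) (x : H) (k : ℝ) : (dil c x).B k = x.B (k / c) := rfl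

lemma dil_mul {c : ℝ} (hc : 0 < c) (x y : H) : dil c (x * y) = dil c x * dil c y := by
  apply ext'
  · simp [mul_add]
  · intro k
    simp only [dil_B, mul_B, dil_T]
    congr 2
    field_simp

@[simp] lemma dil_one (c : ℝ) : dil c 1 = 1 := by
  apply ext' <;> simp

lemma dil_inv {c : ℝ} (hc : 0 < c) (x : H) : dil c x⁻¹ = (dil c x)⁻¹ := by
  apply eq_inv_of_mul_eq_one_left
  rw [← dil_mul hc]
  simp

lemma dil_sup {c : ℝ} (hc : 0 < c) (x y : H) : dil c (x ⊔ y) = dil c x ⊔ dil c y := by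
  rw [sup_def, sup_def]
  have h1 : (dil c x).T < (dil c y).T ↔ x.T < y.T := by
    simp [mul_lt_mul_iff_right₀ hc]
  have h2 : (dil c y).T < (dil c x).T ↔ y.T < x.T := by
    simp [mul_lt_mul_iff_right₀ hc]
  simp only [h1, h2]
  split_ifs <;> rfl

/-- Conjugation by a function. -/
def conj (κ : ℝ → ℤ) (x : H) : H := ⟨x.T, fun k => x.B k + (κ k - κ (k + x.T))⟩

@[simp] lemma conj_T (κ : ℝ → ℤ) (x : H) : (conj κ x).T = x.T := rfl
@[simp] lemma conj_B (κ : ℝ → ℤ) (x : H) (k : ℝ) :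
    (conj κ x).B k = x.B k + (κ k - κ (k + x.T)) := rfl

lemma conj_mul (κ : ℝ → ℤ) (x y : H) : conj κ (x * y) = conj κ x * conj κ y := by
  apply ext'
  · simp
  · intro k
    simp only [conj_B, mul_B, mul_T, conj_T]
    rw [show k + (x.T + y.T) = k + y.T + x.T by ring]
    ring

@[simp] lemma conj_one (κ : ℝ → ℤ) : conj κ 1 = 1 := by
  apply ext' <;> simp

lemma conj_inv (κ : ℝ → ℤ) (x : H) : conj κ x⁻¹ = (conj κ x)⁻¹ := by
  apply eq_inv_of_mul_eq_one_left
  rw [← conj_mul]
  simp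

lemma conj_sup (κ : ℝ → ℤ) (x y : H) : conj κ (x ⊔ y) = conj κ x ⊔ conj κ y := by
  rcases lt_trichotomy x.T y.T with h | h | h
  · rw [sup_def, sup_def, if_pos h, if_pos (by simpa using h)]
  · apply ext'
    · simp [sup_T]
    · intro k
      rw [sup_B_of_eq (by simpa using h), conj_B, sup_B_of_eq h, conj_B, conj_B, sup_T, h, max_self,
        ← max_add_add_right]
  · rw [sup_def, sup_def, if_neg h.asymm, if_pos h, if_neg (by simpa using h.le),
      if_pos (by simpa using h)]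

/-- The prime at position `0`. -/
def P0 (x : H) : Prop := x.T = 0 ∧ x.B 0 = 0

lemma P0_dil {c : ℝ} (hc : 0 < c) (x : H) : P0 (dil c x) ↔ P0 x := by
  simp [P0, hc.ne']

lemma P0_conj (κ : ℝ → ℤ) (x : H) : P0 (conj κ x) ↔ P0 x := by
  unfold P0
  simp only [conj_T, conj_B]
  constructor
  · rintro ⟨h1, h2⟩
    refine ⟨h1, ?_⟩
    rw [h1] at h2
    simpa using h2
  · rintro ⟨h1, h2⟩
    refine ⟨h1, ?_⟩
    rw [h1, h2]
    simp

end H

end Pool.Agent.Helper455.NV
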