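import Pool.Agent.Helper455.NV.Conf
import Pool.Agent.Helper455.NV.Alg

/-!
The contradiction: no data on a tetrahedron of letters exist.
-/

namespace Pool.Agent.Helper455.NV

open H Lt Fc

/-- A family of functions. -/
def mkL (x12 x13 x14 x23 x24 x34 : Bt) : Lt → Bt
  | l12 => x12
  | l13 => x13
  | l14 => x14
  | l23 => x23
  | l24 => x24
  | l34 => x34

namespace Data

variable {A : Type} [CommGroup A] (D : Data A)

/-- The infinitesimal size of the defect of a face. -/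
noncomputable def phi (F : Fc) (y : Lt → ℝ) (β : Lt → Bt) : ℝ := hol (D.N (pt y β)) D.b (D.x F)

variable {D}

lemma hol_congr {F : Fc} {θ θ' : Lt → H} (h : ∀ z, D.FE F z → (z ∈ D.N θ ↔ z ∈ D.N θ')) :
    hol (D.N θ) D.b (D.x F) = hol (D.N θ') D.b (D.x F) := by
  unfold Pool.Agent.Helper455.NV.hol holSet
  congr 1
  ext r
  have h1 : ∀ (m : ℕ) (q : ℤ), (D.x F ^ m * D.b ^ (-q) ∈ D.N θ ↔
      D.x F ^ m * D.b ^ (-q) ∈ D.N θ') := fun m q =>
    h _ (((D.x_FE F).pow m).mul (FE.b_zpow _))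
  simp only [Set.mem_ofPred_eq, h1]

lemma phi_congr {F : Fc} {y y' : Lt → ℝ} {β β' : Lt → Bt} (h : Agree F y y')
    (h' : Agree F β β') : D.phi F y β = D.phi F y' β' := by
  apply hol_congr
  intro z hz
  apply hz.mem_N_iff
  obtain ⟨a1, a2, a3⟩ := h
  obtain ⟨b1, b2, b3⟩ := h'
  exact ⟨by simp only [pt, a1, b1], by simp only [pt, a2, b2], by simp only [pt, a3, b3]⟩

lemma phi_cob (F : Fc) (y : Lt → ℝ) (β : Lt → Bt) (κ : Bt) :
    D.phi F y (fun l => β l + cob (y l) κ) = D.phi F y β := by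
  apply hol_congr
  intro z hz
  obtain ⟨g, hg⟩ := hz.inv.gauge
  have h1 := hg.mem_N (pt y β)
  have h2 := hg.mem_N (pt y fun l => β l + cob (y l) κ)
  rw [inv_inv] at h1 h2
  rw [h1, h2]
  have e : pt y (fun l => β l + cob (y l) κ) = fun l => H.conj κ (pt y β l) := by
    funext l
    apply H.ext'
    · rfl
    · intro k
      rfl
  rw [e, hg.good.conj, H.P0_conj]

lemma phi_dil (F : Fc) {c : ℝ} (hc : 0 < c) (y : Lt → ℝ) (β : Lt → Bt) :
    D.phi F (c • y) (fun l => dilB c (β l)) = D.phi F y β := by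
  apply hol_congr
  intro z hz
  obtain ⟨g, hg⟩ := hz.inv.gauge
  have h1 := hg.mem_N (pt y β)
  have h2 := hg.mem_N (pt (c • y) fun l => dilB c (β l))
  rw [inv_inv] at h1 h2
  rw [h1, h2]
  have e : pt (c • y) (fun l => dilB c (β l)) = fun l => H.dil c (pt y β l) := by
    funext l
    apply H.ext'
    · rfl
    · intro k
      rfl
  rw [e, hg.good.dil c hc, H.P0_dil hc]

lemma x_mem {F : Fc} {y : Lt → ℝ} (h : D.ZeroT y (D.x F)) (β : Lt → Bt) :
    D.x F ∈ D.M (pt y β) := (D.x_FE F).mem_M_pt_iff.2 h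

lemma phi_law {y : Lt → ℝ} (hy : D.Conf y) (β : Lt → Bt) :
    D.phi f123 y β + D.phi f134 y β = D.phi f124 y β + D.phi f234 y β := by
  unfold phi
  have hd := D.hd (pt y β)
  rw [← hd.hol_mul (x_mem (hy _) β) (x_mem (hy _) β),
    ← hd.hol_mul (x_mem (hy _) β) (x_mem (hy _) β), D.law]

/-- The splitting at a configuration. -/
theorem splitting {y : Lt → ℝ} (hy : D.Conf y) :
    (∀ κ, D.phi f123 y (mkL (cob (y l12) κ) 0 0 0 0 0) - D.phi f123 y (mkL 0 0 0 0 0 0) =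
      D.phi f124 y (mkL (cob (y l12) κ) 0 0 0 0 0) - D.phi f124 y (mkL 0 0 0 0 0 0)) ∧
    (∀ κ, (D.phi f124 y (mkL (cob (y l12) κ) 0 0 0 0 0) - D.phi f124 y (mkL 0 0 0 0 0 0)) +
      (D.phi f234 y (mkL 0 0 0 (cob (y l23) κ) 0 0) - D.phi f234 y (mkL 0 0 0 0 0 0)) =
      D.phi f134 y (mkL 0 (cob (y l13) κ) 0 0 0 0) - D.phi f134 y (mkL 0 0 0 0 0 0)) ∧
    (∀ κ p, D.phi f134 y (mkL 0 (p + cob (y l13) κ) 0 0 0 0) - D.phi f134 y (mkL 0 p 0 0 0 0) =
      D.phi f134 y (mkL 0 (cob (y l13) κ) 0 0 0 0) - D.phi f134 y (mkL 0 0 0 0 0 0)) := by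
  apply split_lemma (F1 := fun e r p => D.phi f123 y (mkL e p 0 r 0 0))
    (F2 := fun p f q => D.phi f134 y (mkL 0 p q 0 0 f))
    (F3 := fun e s q => D.phi f124 y (mkL e 0 q 0 s 0))
    (F4 := fun r f s => D.phi f234 y (mkL 0 0 0 r s f))
    (de := cob (y l12)) (dr := cob (y l23)) (dp := cob (y l13))
  · intro e p q r s f
    have h := phi_law hy (mkL e p q r s f)
    have k1 : D.phi f123 y (mkL e p q r s f) = D.phi f123 y (mkL e p 0 r 0 0) :=
      phi_congr ⟨rfl, rfl, rfl⟩ ⟨rfl, rfl, rfl⟩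
    have k2 : D.phi f134 y (mkL e p q r s f) = D.phi f134 y (mkL 0 p q 0 0 f) :=
      phi_congr ⟨rfl, rfl, rfl⟩ ⟨rfl, rfl, rfl⟩
    have k3 : D.phi f124 y (mkL e p q r s f) = D.phi f124 y (mkL e 0 q 0 s 0) :=
      phi_congr ⟨rfl, rfl, rfl⟩ ⟨rfl, rfl, rfl⟩
    have k4 : D.phi f234 y (mkL e p q r s f) = D.phi f234 y (mkL 0 0 0 r s f) :=
      phi_congr ⟨rfl, rfl, rfl⟩ ⟨rfl, rfl, rfl⟩
    rw [k1, k2, k3, k4] at h
    exact h
  · intro κ e r p
    have h := phi_cob (D := D) f123 y (mkL e p 0 r 0 0) κ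
    rw [← h]
    exact phi_congr ⟨rfl, rfl, rfl⟩ ⟨rfl, rfl, rfl⟩

/-- Locality. -/
theorem locality {F : Fc} {y : Lt → ℝ} (hy : D.ZeroT y (D.x F)) :
    ∃ Z : Finset ℝ, ∀ β : Lt → Bt, (∀ l, ∀ z ∈ Z, β l z = 0) →
      |D.phi F y β - D.phi F y 0| ≤ 2 := by
  set n : ℤ := ⌊D.phi F y 0⌋ + 1 with hn
  set n' : ℤ := ⌈D.phi F y 0⌉ - 1 with hn'
  have hn1 : D.phi F y 0 < n := by
    rw [hn]; push_cast; exact Int.lt_floor_add_one _
  have hn2 : (n' : ℝ) < D.phi F y 0 := by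
    rw [hn']; push_cast; have := Int.ceil_lt_add_one (D.phi F y 0); linarith
  have hz : D.FE F (D.x F ^ 1 * D.b ^ (-n)) := ((D.x_FE F).pow 1).mul (FE.b_zpow _)
  have hz' : D.FE F (D.x F ^ 1 * D.b ^ (-n')) := ((D.x_FE F).pow 1).mul (FE.b_zpow _)
  obtain ⟨g, hg⟩ := hz.inv.gauge
  obtain ⟨g', hg'⟩ := hz'.gauge
  obtain ⟨Z1, hZ1⟩ := hg.good.loc y 0
  obtain ⟨Z2, hZ2⟩ := hg'.good.loc y 0
  refine ⟨Z1 ∪ Z2, fun β hβ => ?_⟩
  have hd0 := D.hd (pt y 0)
  have hdβ := D.hd (pt y β)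
  have hx0 := x_mem hy (0 : Lt → Bt)
  have hxβ := x_mem hy β
  -- the upper bound
  have up : D.phi F y β ≤ n := by
    have a1 : D.x F ^ 1 * D.b ^ (-n) ∉ D.N (pt y 0) := by
      intro h
      have := hd0.le_hol hx0 one_pos h
      rw [Nat.cast_one, div_one] at this
      exact absurd this (not_le.2 hn1)
    have a2 : D.x F ^ 1 * D.b ^ (-n) ∉ D.N (pt y β) := by
      intro h
      apply a1
      have b1 := (hg.mem_N (pt y β)).1 (by rwa [inv_inv])
      have b2 := (hg.mem_N (pt y 0))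
      rw [inv_inv] at b2
      rw [b2]
      refine ⟨?_, ?_⟩
      · rw [hg.good.T_pt y 0 β]
        exact b1.1
      · rw [hZ1 0 β fun l z hz => (hβ l z (Finset.mem_union_left _ hz)).symm]
        exact b1.2
    by_contra hcon
    push Not at hcon
    apply a2
    apply hdβ.mem_of_lt hxβ one_pos
    rw [Nat.cast_one, div_one]
    exact hcon
  have low : (n' : ℝ) ≤ D.phi F y β := by
    have a1 : (D.x F ^ 1 * D.b ^ (-n'))⁻¹ ∉ D.N (pt y 0) := by
      intro h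
      have hm : D.x F ^ 1 * D.b ^ (-n') ∈ D.M (pt y 0) :=
        (D.M _).mul_mem ((D.M _).pow_mem hx0 1) ((D.M _).zpow_mem hd0.b_M _)
      have h1 := hd0.hol_nonneg ((D.M _).inv_mem hm) h
      rw [hd0.hol_inv hm] at h1
      -- pick a rational strictly between
      obtain ⟨m, hm0⟩ := exists_nat_gt (1 / (D.phi F y 0 - n'))
      have hpos : 0 < D.phi F y 0 - n' := by linarith
      have hmr : (0 : ℝ) < m := lt_trans (by positivity) hm0
      have hm' : 0 < m := by exact_mod_cast hmr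
      have h2 : ((m * n' + 1 : ℤ) : ℝ) / m < D.phi F y 0 := by
        rw [div_lt_iff₀ hmr]
        push_cast
        rw [div_lt_iff₀ hpos] at hm0
        nlinarith
      have h3 := hd0.mem_of_lt hx0 hm' h2
      have h4 : D.x F ^ m * D.b ^ (-(m * n' + 1)) * ((D.x F ^ 1 * D.b ^ (-n'))⁻¹) ^ m =
          D.b⁻¹ := by
        rw [pow_one, inv_pow, mul_pow, mul_inv, ← zpow_natCast (D.b ^ (-n')), ← zpow_mul,
          ← zpow_neg, neg_add, zpow_add, zpow_neg_one]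
        rw [show D.x F ^ m * (D.b ^ (-(m * n')) * D.b⁻¹) *
            ((D.x F ^ m)⁻¹ * D.b ^ (-(-n' * m))) =
            (D.x F ^ m * (D.x F ^ m)⁻¹) * (D.b ^ (-(m * n')) * D.b ^ (-(-n' * m))) * D.b⁻¹ by
              simp only [mul_assoc, mul_left_comm, mul_comm]]
        rw [mul_inv_cancel, one_mul, ← zpow_add]
        rw [show -(↑m * n') + -(-n' * ↑m) = 0 by ring, zpow_zero, one_mul]
      exact hd0.b_not (h4 ▸ (D.N _).mul_mem h3 ((D.N _).pow_mem h m))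
    have a2 : (D.x F ^ 1 * D.b ^ (-n'))⁻¹ ∉ D.N (pt y β) := by
      intro h
      apply a1
      have b1 := (hg'.mem_N (pt y β)).1 h
      rw [hg'.mem_N (pt y 0)]
      refine ⟨?_, ?_⟩
      · rw [hg'.good.T_pt y 0 β]
        exact b1.1
      · rw [hZ2 0 β fun l z hz => (hβ l z (Finset.mem_union_right _ hz)).symm]
        exact b1.2
    have a3 := (hdβ.tot _).resolve_right a2
    have := hdβ.le_hol hxβ one_pos a3
    rwa [Nat.cast_one, div_one] at this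
  have f1 := Int.floor_le (D.phi F y 0)
  have f2 := Int.le_ceil (D.phi F y 0)
  have f3 : (n : ℝ) = ⌊D.phi F y 0⌋ + 1 := by rw [hn]; push_cast; rfl
  have f4 : (n' : ℝ) = ⌈D.phi F y 0⌉ - 1 := by rw [hn']; push_cast; rfl
  rw [abs_le]
  constructor <;> linarith

lemma mkL_zero : mkL 0 0 0 0 0 0 = 0 := by
  funext l
  cases l <;> rfl

/-- The functional of the letter `13` at the first location. -/
noncomputable def vp (D : Data A) (lam : ℝ) (κ : Bt) : ℝ :=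
  D.phi f134 (mk6 0 1 lam 0 0 0) (mkL 0 (cob 1 κ) 0 0 0 0) -
    D.phi f134 (mk6 0 1 lam 0 0 0) (mkL 0 0 0 0 0 0)

/-- The functional of the letter `23`. -/
noncomputable def vr (D : Data A) (sig rho : ℝ) (κ : Bt) : ℝ :=
  D.phi f234 (mk6 0 0 0 rho (sig * rho) 0) (mkL 0 0 0 (cob rho κ) 0 0) -
    D.phi f234 (mk6 0 0 0 rho (sig * rho) 0) (mkL 0 0 0 0 0 0)

/-- The functional of the letter `12` from the face `124`. -/
noncomputable def ve (D : Data A) (t q s : ℝ) (κ : Bt) : ℝ :=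
  D.phi f124 (mk6 t 0 q 0 s 0) (mkL (cob t κ) 0 0 0 0 0) -
    D.phi f124 (mk6 t 0 q 0 s 0) (mkL 0 0 0 0 0 0)

/-- The functional of the letter `12` from the face `123`. -/
noncomputable def vf (D : Data A) (t p r : ℝ) (κ : Bt) : ℝ :=
  D.phi f123 (mk6 t p 0 r 0 0) (mkL (cob t κ) 0 0 0 0 0) -
    D.phi f123 (mk6 t p 0 r 0 0) (mkL 0 0 0 0 0 0)

lemma vr_dil {sig rho c : ℝ} (hc : 0 < c) (κ : Bt) :
    D.vr sig (c * rho) (dilB c κ) = D.vr sig rho κ := by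
  unfold vr
  have e1 : mk6 0 0 0 (c * rho) (sig * (c * rho)) 0 = c • mk6 0 0 0 rho (sig * rho) 0 := by
    rw [smul_mk6]
    congr 1 <;> ring
  have e2 : ∀ x : Bt, mkL 0 0 0 (dilB c x) 0 0 = fun l => dilB c (mkL 0 0 0 x 0 0 l) := by
    intro x
    funext l
    cases l <;> rfl
  rw [e1, cob_dilB hc, e2, phi_dil _ hc, ← phi_dil f234 hc (mk6 0 0 0 rho (sig * rho) 0)
    (mkL 0 0 0 0 0 0), ← e2, dilB_zero]

lemma vf_dil {t p r c : ℝ} (hc : 0 < c) (κ : Bt) :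
    D.vf (c * t) (c * p) (c * r) (dilB c κ) = D.vf t p r κ := by
  unfold vf
  have e1 : mk6 (c * t) (c * p) 0 (c * r) 0 0 = c • mk6 t p 0 r 0 0 := by
    rw [smul_mk6]
    congr 1 <;> ring
  have e2 : ∀ x : Bt, mkL (dilB c x) 0 0 0 0 0 = fun l => dilB c (mkL x 0 0 0 0 0 l) := by
    intro x
    funext l
    cases l <;> rfl
  rw [e1, cob_dilB hc, e2, phi_dil _ hc, ← phi_dil f123 hc (mk6 t p 0 r 0 0)
    (mkL 0 0 0 0 0 0), ← e2, dilB_zero]

/-- The relations at a configuration. -/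
theorem relations {t rho q s f p : ℝ} (hy : D.Conf (mk6 t p q rho s f)) (κ : Bt) :
    D.vf t p rho κ = D.ve t q s κ := by
  have h := (splitting hy).1 κ
  have k1 : ∀ β : Lt → Bt, D.phi f123 (mk6 t p q rho s f) β =
      D.phi f123 (mk6 t p 0 rho 0 0) β := fun β =>
    phi_congr ⟨rfl, rfl, rfl⟩ ⟨rfl, rfl, rfl⟩
  have k2 : ∀ β : Lt → Bt, D.phi f124 (mk6 t p q rho s f) β =
      D.phi f124 (mk6 t 0 q 0 s 0) β := fun β =>
    phi_congr ⟨rfl, rfl, rfl⟩ ⟨rfl, rfl, rfl⟩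
  rw [k1, k1, k2, k2] at h
  exact h

theorem relations' {t lam rho sig : ℝ} (hy : D.Conf (mk6 t 1 lam rho (sig * rho) 0)) (κ : Bt) :
    D.vf t 1 rho κ + D.vr sig rho κ = D.vp lam κ := by
  have h1 := (splitting hy).1 κ
  have h := (splitting hy).2.1 κ
  rw [← h1] at h
  have k1 : ∀ β : Lt → Bt, D.phi f123 (mk6 t 1 lam rho (sig * rho) 0) β =
      D.phi f123 (mk6 t 1 0 rho 0 0) β := fun β =>
    phi_congr ⟨rfl, rfl, rfl⟩ ⟨rfl, rfl, rfl⟩
  have k2 : ∀ β : Lt → Bt, D.phi f234 (mk6 t 1 lam rho (sig * rho) 0) β =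
      D.phi f234 (mk6 0 0 0 rho (sig * rho) 0) β := fun β =>
    phi_congr ⟨rfl, rfl, rfl⟩ ⟨rfl, rfl, rfl⟩
  have k3 : ∀ β : Lt → Bt, D.phi f134 (mk6 t 1 lam rho (sig * rho) 0) β =
      D.phi f134 (mk6 0 1 lam 0 0 0) β := fun β =>
    phi_congr ⟨rfl, rfl, rfl⟩ ⟨rfl, rfl, rfl⟩
  rw [k1, k1, k2, k2, k3, k3] at h
  exact h

theorem vp_add {t lam rho sig : ℝ} (hy : D.Conf (mk6 t 1 lam rho (sig * rho) 0)) (κ κ' : Bt) :
    D.vp lam (κ + κ') = D.vp lam κ + D.vp lam κ' := by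
  have h := (splitting hy).2.2
  have k3 : ∀ β : Lt → Bt, D.phi f134 (mk6 t 1 lam rho (sig * rho) 0) β =
      D.phi f134 (mk6 0 1 lam 0 0 0) β := fun β =>
    phi_congr ⟨rfl, rfl, rfl⟩ ⟨rfl, rfl, rfl⟩
  simp only [k3] at h
  have h1 := h κ' (cob 1 κ)
  unfold vp
  rw [cob_add]
  change D.phi f134 (mk6 0 1 lam 0 0 0) (mkL 0 (cob 1 κ + cob 1 κ') 0 0 0 0) - _ =
    D.phi f134 (mk6 0 1 lam 0 0 0) (mkL 0 (cob 1 κ') 0 0 0 0) - _ at h1
  linarith

lemma zeroT_of {F : Fc} {z : A} {y y' : Lt → ℝ} (hz : D.FE F z)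
    (h0 : D.ZeroT y' z) (h : Agree F y y') : D.ZeroT y z :=
  (hz.zeroT_congr h).2 h0

theorem false (D : Data A) : False := by
  obtain ⟨lam, hlam, hl0, hl1⟩ := D.loc134
  obtain ⟨sig, hsig, hs⟩ := D.loc234
  obtain ⟨rho0, hrho0, hr0, δ, hδ, hr⟩ := D.loc123
  have hu1 : 0 < δ / 3 := by positivity
  have hu2 : 0 < δ / 2 := by positivity
  obtain ⟨rho1, hrho1, hrho1', hr1⟩ := hr (δ / 3) hu1 (by linarith)
  obtain ⟨rho2, hrho2, hrho2', hr2⟩ := hr (δ / 2) hu2 (by linarith)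
  -- configurations of the first type
  have confA : ∀ u rho : ℝ, 0 < rho → D.ZeroT (mk6 u 1 0 rho 0 0) (D.x f123) →
      D.Conf (mk6 u 1 lam rho (sig * rho) 0) := by
    intro u rho hrho h
    apply conf_of_123_134_234
    · exact zeroT_of (D.x_FE f123) h ⟨rfl, rfl, rfl⟩
    · exact zeroT_of (D.x_FE f134) hl0 ⟨rfl, rfl, rfl⟩
    · exact zeroT_of (D.x_FE f234) (hs rho hrho) ⟨rfl, rfl, rfl⟩
  have A0 := confA 0 rho0 hrho0 hr0
  have A1 := confA (δ / 3) rho1 hrho1 hr1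
  have A2 := confA (δ / 2) rho2 hrho2 hr2
  -- configurations of the second type
  obtain ⟨s1, hs1, hs1'⟩ := D.loc234' (rho1 / (δ / 3))
  obtain ⟨s2, hs2, hs2'⟩ := D.loc234' (rho2 / (δ / 2))
  set s := max s1 s2 with hsdef
  obtain ⟨q, hq, hq'⟩ := D.loc124 s
  have confC : ∀ u rho f : ℝ, 0 < u → D.ZeroT (mk6 u 1 0 rho 0 0) (D.x f123) →
      D.ZeroT (mk6 0 0 0 (rho / u) s f) (D.x f234) →
      D.Conf (mk6 1 (1 / u) q (rho / u) s f) := by
    intro u rho f hu h1 h2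
    apply conf_of_123_124_234
    · have e : mk6 u 1 0 rho 0 0 = u • mk6 1 (1 / u) 0 (rho / u) 0 0 := by
        rw [smul_mk6]
        congr 1 <;> (try field_simp) <;> (try ring)
      rw [e, (D.x_FE f123).zeroT_smul hu] at h1
      exact zeroT_of (D.x_FE f123) h1 ⟨rfl, rfl, rfl⟩
    · exact zeroT_of (D.x_FE f124) hq' ⟨rfl, rfl, rfl⟩
    · exact zeroT_of (D.x_FE f234) h2 ⟨rfl, rfl, rfl⟩
  obtain ⟨f1, -, hf1⟩ := hs1' s (le_max_left _ _)
  obtain ⟨f2, -, hf2⟩ := hs2' s (le_max_right _ _)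
  have C1 := confC (δ / 3) rho1 f1 hu1 hr1 hf1
  have C2 := confC (δ / 2) rho2 f2 hu2 hr2 hf2
  -- the functional `v`
  let v : Bt →+ ℝ := AddMonoidHom.mk' (D.vp lam) (vp_add A0)
  have hv : ∀ κ, v κ = D.vp lam κ := fun _ => rfl
  have hvr0 : ∀ κ, D.vr sig rho0 κ = D.vp lam κ := by
    intro κ
    have h := relations' A0 κ
    have h0 : D.vf 0 1 rho0 κ = 0 := by
      unfold vf
      rw [cob_zero, sub_self]
    rw [h0, zero_add] at h
    exact h
  have hvr : ∀ rho : ℝ, 0 < rho → ∀ κ, D.vr sig rho κ = v (dilB (rho / rho0)⁻¹ κ) := by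
    intro rho hrho κ
    have hc : 0 < rho / rho0 := div_pos hrho hrho0
    have h := vr_dil (D := D) (sig := sig) (rho := rho0) hc (dilB (rho / rho0)⁻¹ κ)
    rw [dilB_dilB_inv hc, show rho / rho0 * rho0 = rho by field_simp] at h
    rw [h, hvr0]
    rfl
  have hvf : ∀ u rho f : ℝ, 0 < u → D.Conf (mk6 1 (1 / u) q (rho / u) s f) → ∀ κ,
      D.vf u 1 rho (dilB u κ) = D.ve 1 q s κ := by
    intro u rho f hu hC κ
    have h := vf_dil (D := D) (t := 1) (p := 1 / u) (r := rho / u) hu κ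
    rw [show u * 1 = u by ring, show u * (1 / u) = 1 by field_simp,
      show u * (rho / u) = rho by field_simp] at h
    rw [h]
    exact relations  hC κ
  have hrel : ∀ κ : Bt, v (dilB (δ / 3) κ) - v (dilB (rho1 / rho0)⁻¹ (dilB (δ / 3) κ)) =
      v (dilB (δ / 2) κ) - v (dilB (rho2 / rho0)⁻¹ (dilB (δ / 2) κ)) := by
    intro κ
    have h1 := relations' A1 (dilB (δ / 3) κ)
    have h2 := relations' A2 (dilB (δ / 2) κ)
    rw [hvf _ _ _ hu1 C1, hvr _ hrho1] at h1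
    rw [hvf _ _ _ hu2 C2, hvr _ hrho2] at h2
    rw [hv (dilB (δ / 3) κ), hv (dilB (δ / 2) κ)]
    linarith
  -- locality of `v`
  have hZ134 : D.ZeroT (mk6 0 1 lam 0 0 0) (D.x f134) := hl0
  obtain ⟨Z, hZ⟩ := locality hZ134
  have hloc : ∀ κ : Bt, (∀ z ∈ Z, cob 1 κ z = 0) → v κ = 0 := by
    intro κ hκ
    have h1 : ∀ n : ℕ, |(n : ℝ) * v κ| ≤ 2 := by
      intro n
      have h2 : v (n • κ) = n * v κ := by
        rw [map_nsmul, nsmul_eq_mul]
      rw [← h2, hv]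
      unfold vp
      rw [mkL_zero]
      apply hZ
      intro l z hz
      cases l
      · rfl
      · show cob 1 (n • κ) z = 0
        have h3 := hκ z hz
        simp only [cob, Pi.smul_apply] at h3 ⊢
        rw [← smul_sub, h3, smul_zero]
      all_goals rfl
    by_contra hne
    have hpos : 0 < |v κ| := abs_pos.2 hne
    obtain ⟨n, hn⟩ := exists_nat_gt (2 / |v κ|)
    rw [div_lt_iff₀ hpos] at hn
    have := h1 n
    rw [abs_mul, Nat.abs_cast] at this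
    linarith
  have hv0 : ∀ κ, v κ = 0 := by
    apply vanish v (Z ∪ Z.image fun z => z + 1) ?_ ?_ (div_pos hrho1 hrho0)
      ((div_lt_one hrho0).2 hrho1') (div_pos hrho2 hrho0) ((div_lt_one hrho0).2 hrho2') hu1
      (show δ / 3 < δ / 2 by linarith) hrel
    · intro κ hκ
      apply hloc
      intro z hz
      unfold cob
      rw [hκ z (Finset.mem_union_left _ hz),
        hκ (z + 1) (Finset.mem_union_right _ (Finset.mem_image_of_mem _ hz)), sub_zero]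
    · intro κ hκ
      apply hloc
      intro z _
      unfold cob
      rw [hκ, sub_self]
  -- constants are invisible
  set ys : Lt → ℝ := mk6 0 1 lam 0 0 0 with hys
  have hcst : ∀ m : ℕ, D.phi f134 ys (cst l13 m) = D.phi f134 ys 0 := by
    intro m
    have h := hv0 (fun k => -(m : ℤ) * ⌊k⌋)
    rw [hv] at h
    unfold vp at h
    have e : mkL 0 (cob 1 fun k => -(m : ℤ) * ⌊k⌋) 0 0 0 0 = cst l13 (m : ℤ) := by
      funext l k
      cases l
      · simp [mkL, cst]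
      · simp only [mkL, cst, cob, Int.floor_add_one, if_true]
        ring
      all_goals simp [mkL, cst]
    rw [e, mkL_zero] at h
    linarith
  -- unboundedness
  set n : ℤ := ⌊D.phi f134 ys 0⌋ + 1 with hn
  have hn1 : D.phi f134 ys 0 < n := by
    rw [hn]; push_cast; exact Int.lt_floor_add_one _
  have hz : D.FE f134 (D.x f134 ^ 1 * D.b ^ (-n)) := ((D.x_FE _).pow 1).mul (FE.b_zpow _)
  obtain ⟨g, hg⟩ := hz.gauge
  have hT0 : (g (pt ys 0)).T = 0 := by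
    rw [← hg.mem_M]
    left
    exact (D.M _).mul_mem ((D.M _).pow_mem (x_mem hZ134 0) 1) ((D.M _).zpow_mem (D.hd _).b_M _)
  obtain ⟨c, ⟨ε0, hε0, hc1⟩, hc2⟩ := hg.good.dir ys l13
  have hcpos : 0 < c := by
    have h1 := hc1 (ε0 / 2) (by linarith) (by linarith)
    rw [hT0, zero_add] at h1
    have e : bump l13 (ε0 / 2) ys = mk6 0 (1 + ε0 / 2) lam 0 0 0 := by
      funext l
      cases l <;> simp [bump, hys, mk6]
    rw [e] at h1
    have h2 : D.PosT (mk6 0 (1 + ε0 / 2) lam 0 0 0) (D.x f134 ^ 1 * D.b ^ (-n)) := by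
      rw [pow_one]
      exact (hl1 (1 + ε0 / 2) (by linarith)).mul_M ((D.M _).zpow_mem (D.hd _).b_M _)
    have h3 : (g (pt (mk6 0 (1 + ε0 / 2) lam 0 0 0) 0)).T ≠ 0 := by
      intro h
      rw [← hg.mem_M] at h
      exact pos_iff.1 h2 h
    have h4 : 0 ≤ (g (pt (mk6 0 (1 + ε0 / 2) lam 0 0 0) 0)).T := by
      rcases H.one_le_iff.1 (hg.one_le (pt (mk6 0 (1 + ε0 / 2) lam 0 0 0) 0)) with h | ⟨h, -⟩
      · exact h.le
      · exact h.ge
    have h5 : 0 < c * (ε0 / 2) := by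
      rw [← h1]
      exact lt_of_le_of_ne h4 (Ne.symm h3)
    exact (pos_iff_pos_of_mul_pos h5).2 (by linarith)
  obtain ⟨C, hC⟩ := hc2 0
  obtain ⟨m, hm⟩ := exists_nat_gt (C / c)
  rw [div_lt_iff₀ hcpos] at hm
  have hB : 0 < ((g (pt ys (cst l13 m))).B 0 : ℝ) := by
    have := (abs_le.1 (hC m)).1
    nlinarith
  have hnot : (D.x f134 ^ 1 * D.b ^ (-n))⁻¹ ∉ D.N (pt ys (cst l13 m)) := by
    intro h
    rw [hg.mem_N] at h
    have h1 := h.2
    rw [h1] at hB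
    simp at hB
  have hin := ((D.hd (pt ys (cst l13 m))).tot _).resolve_right hnot
  have hle := (D.hd (pt ys (cst l13 m))).le_hol (x_mem hZ134 _) one_pos hin
  rw [Nat.cast_one, div_one] at hle
  have : (n : ℝ) ≤ D.phi f134 ys (cst l13 m) := hle
  rw [hcst m] at this
  linarith

end Data

end Pool.Agent.Helper455.NV
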