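import Pool.Agent.Helper455.NV.Pts
import Pool.Agent.Helper455.NV.Free
import Pool.Agent.Helper455.NV.VArg

/-!
The main theorem: the lattice of convex `l`-subgroups of the group of good functions on pairs of
indices is not the one of an abelian `l`-group.
-/

namespace Pool.Agent.Helper455.NV

open H

section Restrict

variable {L : Type} (ι : Lt → L)

/-- Extension of a family by the unit element. -/
noncomputable def ext (θ : Lt → H) : L → H := Function.extend ι θ 1

variable {ι}

lemma ext_map {f : H → H} (hf : f 1 = 1) (hι : Function.Injective ι) (θ : Lt → H) :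
    (fun l => f (ext ι θ l)) = ext ι (fun l => f (θ l)) := by
  funext l
  by_cases h : ∃ e, ι e = l
  · obtain ⟨e, rfl⟩ := h
    simp only [ext, hι.extend_apply]
  · simp only [ext, Function.extend_apply' _ _ _ h, Pi.one_apply, hf]

lemma ext_pt (hι : Function.Injective ι) (y : Lt → ℝ) (β : Lt → ℝ → ℤ) :
    ext ι (pt y β) = pt (Function.extend ι y 0) (Function.extend ι β 0) := by
  funext l
  by_cases h : ∃ e, ι e = l
  · obtain ⟨e, rfl⟩ := h
    simp only [ext, pt, hι.extend_apply]
  · simp only [ext, pt, Function.extend_apply' _ _ _ h, Pi.one_apply, Pi.zero_apply]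
    rfl

lemma extend_zero (hι : Function.Injective ι) :
    Function.extend ι (0 : Lt → ℝ → ℤ) (0 : L → ℝ → ℤ) = 0 := by
  funext l
  by_cases h : ∃ e, ι e = l
  · obtain ⟨e, rfl⟩ := h
    simp only [hι.extend_apply, Pi.zero_apply]
  · simp only [Function.extend_apply' _ _ _ h]

lemma extend_bump (hι : Function.Injective ι) (l0 : Lt) (ε : ℝ) (y : Lt → ℝ) :
    Function.extend ι (bump l0 ε y) (0 : L → ℝ) =
      bump (ι l0) ε (Function.extend ι y 0) := by
  funext l
  by_cases h : ∃ e, ι e = l
  · obtain ⟨e, rfl⟩ := h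
    by_cases h1 : e = l0
    · subst h1
      simp [bump, hι.extend_apply]
    · have h2 : ι e ≠ ι l0 := fun h => h1 (hι h)
      simp [bump, hι.extend_apply, h1, h2]
  · have h1 : l ≠ ι l0 := fun h' => h ⟨l0, h'.symm⟩
    simp only [bump, Function.extend_apply' _ _ _ h, if_neg h1]

lemma extend_cst (hι : Function.Injective ι) (l0 : Lt) (n : ℤ) :
    Function.extend ι (cst l0 n) (0 : L → ℝ → ℤ) = cst (ι l0) n := by
  funext l
  by_cases h : ∃ e, ι e = l
  · obtain ⟨e, rfl⟩ := h
    rw [hι.extend_apply]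
    funext x
    by_cases h1 : e = l0
    · subst h1
      simp [cst]
    · have h2 : ι e ≠ ι l0 := fun h => h1 (hι h)
      simp [cst, h1, h2]
  · have h1 : l ≠ ι l0 := fun h' => h ⟨l0, h'.symm⟩
    rw [Function.extend_apply' _ _ _ h]
    funext x
    simp [cst, h1]

theorem good_restrict (hι : Function.Injective ι) {g : (L → H) → H} (hg : Good g) :
    Good fun θ : Lt → H => g (ext ι θ) where
  T_eq := fun θ θ' e => hg.T_eq _ _ fun l => by
    by_cases h : ∃ e, ι e = l
    · obtain ⟨e', rfl⟩ := h
      simp only [ext, hι.extend_apply]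
      exact e e'
    · simp only [ext, Function.extend_apply' _ _ _ h]
  T_cont := by
    simp only [ext_pt hι, extend_zero hι]
    refine hg.T_cont.comp (continuous_pi fun l => ?_)
    by_cases h : ∃ e, ι e = l
    · obtain ⟨e', rfl⟩ := h
      simp only [hι.extend_apply]
      exact continuous_apply e'
    · simp only [Function.extend_apply' _ _ _ h]
      exact continuous_const
  dil := fun c hc θ => by
    rw [← hg.dil c hc, ext_map (dil_one c) hι]
  conj := fun κ θ => by
    rw [← hg.conj, ext_map (conj_one κ) hι]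
  loc := fun y k => by
    obtain ⟨Z, hZ⟩ := hg.loc (Function.extend ι y 0) k
    refine ⟨Z, fun β β' e => ?_⟩
    simp only [ext_pt hι]
    apply hZ
    intro l z hz
    by_cases h : ∃ e, ι e = l
    · obtain ⟨e', rfl⟩ := h
      simp only [hι.extend_apply]
      exact e e' z hz
    · simp only [Function.extend_apply' _ _ _ h]
  dir := fun y l0 => by
    obtain ⟨c, h1, h2⟩ := hg.dir (Function.extend ι y 0) (ι l0)
    refine ⟨c, ?_, ?_⟩
    · simp only [ext_pt hι, extend_zero hι, extend_bump hι]
      exact h1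
    · simp only [ext_pt hι, extend_cst hι]
      exact h2

end Restrict

/-- The six edges of a tetrahedron of indices. -/
def edges (s1 s2 s3 s4 : Om) : Lt → Om × Om
  | Lt.l12 => (s1, s2)
  | Lt.l13 => (s1, s3)
  | Lt.l14 => (s1, s4)
  | Lt.l23 => (s2, s3)
  | Lt.l24 => (s2, s4)
  | Lt.l34 => (s3, s4)

lemma edges_inj {s1 s2 s3 s4 : Om}
    (h : s1 ≠ s2 ∧ s1 ≠ s3 ∧ s1 ≠ s4 ∧ s2 ≠ s3 ∧ s2 ≠ s4 ∧ s3 ≠ s4) :
    Function.Injective (edges s1 s2 s3 s4) := by
  obtain ⟨h12, h13, h14, h23, h24, h34⟩ := h
  intro e e' h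
  cases e <;> cases e' <;> simp_all [edges, Ne.symm]

section Main

variable {A : Type} [CommGroup A] [Lattice A] [MulLeftMono A] [MulRightMono A]

theorem not_iso (Ψ : CS (GG (Om × Om)) ≃o CS A) : False := by
  -- the elements of `A`
  choose a ha hea using fun l : Om × Om =>
    exists_pr' Ψ (coord l ⊔ (coord l)⁻¹) (one_le_abs _)
  obtain ⟨b, hb, heb⟩ := exists_pr' Ψ bG one_le_bG
  choose gz hgz1 hgz using gauge_transfer Ψ
  choose Dz hDz using fun z => (gz z).2.2
  -- the exceptional indices
  let zz : Om → Om → Om → (ℤ × ℤ × ℤ × ℤ) → A := fun s t u m =>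
    a (s, t) ^ m.1 * a (t, u) ^ m.2.1 * a (s, u) ^ m.2.2.1 * b ^ m.2.2.2
  let E : Om → Om → Om → Set Om := fun s t u =>
    ⋃ m : ℤ × ℤ × ℤ × ℤ, ((fun l : Om × Om => l.1) '' (Dz (zz s t u m) : Set (Om × Om)) ∪
      (fun l : Om × Om => l.2) '' (Dz (zz s t u m) : Set (Om × Om)))
  have hE : ∀ s t u, (E s t u).Countable := by
    intro s t u
    refine Set.countable_iUnion fun m => ?_
    exact (((Finset.countable_toSet _).image _).union ((Finset.countable_toSet _).image _))
  have hEm : ∀ s t u m l, l ∈ Dz (zz s t u m) → l.1 ∈ E s t u ∧ l.2 ∈ E s t u := by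
    intro s t u m l hl
    constructor
    · exact Set.mem_iUnion.2 ⟨m, Or.inl ⟨l, hl, rfl⟩⟩
    · exact Set.mem_iUnion.2 ⟨m, Or.inr ⟨l, hl, rfl⟩⟩
  obtain ⟨s1, s2, s3, s4, hne, h4, h3, h2, h1⟩ := quad E hE
  have hι := edges_inj hne
  set ι := edges s1 s2 s3 s4 with hιdef
  have key : ∀ (F : Fc) (m : ℤ × ℤ × ℤ × ℤ) (θ θ' : Lt → H), Agree F θ θ' →
      (gz (a (ι F.e1) ^ m.1 * a (ι F.e2) ^ m.2.1 * a (ι F.e3) ^ m.2.2.1 * b ^ m.2.2.2)).1
        (ext ι θ) =
      (gz (a (ι F.e1) ^ m.1 * a (ι F.e2) ^ m.2.1 * a (ι F.e3) ^ m.2.2.1 * b ^ m.2.2.2)).1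
        (ext ι θ') := by
    intro F m θ θ' hF
    obtain ⟨hF1, hF2, hF3⟩ := hF
    apply hDz
    intro l hl
    by_cases h : ∃ e, ι e = l
    · obtain ⟨e, rfl⟩ := h
      simp only [ext, hι.extend_apply]
      cases F
      · have := hEm s1 s2 s3 m _ hl
        cases e
        · exact hF1
        · exact hF3
        · exact absurd this.2 h4
        · exact hF2
        · exact absurd this.2 h4
        · exact absurd this.2 h4
      · have := hEm s1 s3 s4 m _ hl
        cases e
        · exact absurd this.2 h2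
        · exact hF1
        · exact hF3
        · exact absurd this.1 h2
        · exact absurd this.1 h2
        · exact hF2
      · have := hEm s1 s2 s4 m _ hl
        cases e
        · exact hF1
        · exact absurd this.2 h3
        · exact hF3
        · exact absurd this.2 h3
        · exact hF2
        · exact absurd this.1 h3
      · have := hEm s2 s3 s4 m _ hl
        cases e
        · exact absurd this.1 h1
        · exact absurd this.1 h1
        · exact absurd this.1 h1
        · exact hF1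
        · exact hF3
        · exact hF2
    · simp only [ext, Function.extend_apply' _ _ _ h]
  refine Data.false (A := A)
    { a := fun l => a (ι l)
      b := b
      N := fun θ => Npos (Ψ (Pt (ext ι θ)))
      M := fun θ => (Ψ (Mt (ext ι θ))).1
      hd := fun θ => holData_transfer Ψ (primePair _) one_le_bG (bG_mem _) (bG_not_mem _) hb heb
      conv := fun θ x y hx hy hxy =>
        Npos_conv (Ψ.monotone (primePair (ext ι θ)).le) hx hy hxy
      a_pos := fun θ l => Npos_of_one_le (ha _)
      a_M := fun θ l => ?_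
      gauge := fun F m1 m2 m3 m4 => ?_ }
  · rw [mem_iff_of_pr (hea (ι l)), coord_abs_mem]
    simp only [ext, hι.extend_apply]
  · refine ⟨fun θ => (gz (a (ι F.e1) ^ m1 * a (ι F.e2) ^ m2 * a (ι F.e3) ^ m3 * b ^ m4)).1
      (ext ι θ), good_restrict hι (gz _).2.1, fun θ => hgz1 _ _, key F (m1, m2, m3, m4), ?_, ?_⟩
    · intro θ
      exact (hgz _ _ _ (primePair (ext ι θ))).1
    · intro θ
      exact (hgz _ _ _ (primePair (ext ι θ))).2

end Main

end Pool.Agent.Helper455.NV
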