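import Pool.Agent.Helper455.NV.Conv
import Pool.Agent.Helper455.NV.Holder

/-!
Transport of a prime pair of convex `l`-subgroups to an abelian `l`-group.
-/

namespace Pool.Agent.Helper455.NV

section Comm

variable {A : Type*} [CommGroup A] [Lattice A] [MulLeftMono A] [MulRightMono A]

/-- The elements which are nonnegative modulo `P`. -/
def Npos (P : CS A) : Submonoid A where
  carrier := {x | x⁻¹ ⊔ 1 ∈ P.1}
  one_mem' := by simp
  mul_mem' := by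
    intro x y hx hy
    have h1 : (x * y)⁻¹ ⊔ 1 ≤ (x⁻¹ ⊔ 1) * (y⁻¹ ⊔ 1) := by
      apply sup_le
      · rw [mul_inv]
        exact mul_le_mul' le_sup_left le_sup_left
      · exact one_le_mul le_sup_right le_sup_right
    exact P.2.2 1 P.1.one_mem _ (P.1.mul_mem hx hy) _ le_sup_right h1

lemma mem_Npos {P : CS A} {x : A} : x ∈ Npos P ↔ x⁻¹ ⊔ 1 ∈ P.1 := Iff.rfl

lemma Npos_of_one_le {P : CS A} {x : A} (h : 1 ≤ x) : x ∈ Npos P := by
  rw [mem_Npos, sup_eq_right.2 (inv_le_one'.2 h)]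
  exact P.1.one_mem

lemma Npos_conv {P M : CS A} (hPM : P ≤ M) {x y : A} (hx : x ∈ Npos P) (hy : y ∈ M.1)
    (hxy : y * x⁻¹ ∈ Npos P) : x ∈ M.1 := by
  rw [mem_Npos] at hx hxy
  have h1 : x ≤ ((y * x⁻¹)⁻¹ ⊔ 1) * y := by
    have : (y * x⁻¹)⁻¹ * y ≤ ((y * x⁻¹)⁻¹ ⊔ 1) * y := mul_le_mul_left le_sup_left _
    simpa using this
  have h2 : (x⁻¹ ⊔ 1)⁻¹ ≤ x := by
    rw [inv_le']
    exact le_sup_left
  exact M.2.2 _ (M.1.inv_mem (hPM hx)) _ (M.1.mul_mem (hPM hxy) hy) x h2 h1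

lemma eq_pos_mul (x : A) : x = (x ⊔ 1) * (x⁻¹ ⊔ 1)⁻¹ := by
  have := oneLePart_div_leOnePart x
  rw [div_eq_mul_inv] at this
  exact this.symm

lemma pos_inf_neg (x : A) : (x ⊔ 1) ⊓ (x⁻¹ ⊔ 1) = 1 :=
  oneLePart_inf_leOnePart_eq_one x

lemma sup_one_mem_iff {P M : CS A} (hPM : P ≤ M) (htot : ∀ x : A, x ∈ Npos P ∨ x⁻¹ ∈ Npos P)
    (z : A) : z ⊔ 1 ∈ M.1 ↔ (z ∈ M.1 ∨ z⁻¹ ∈ Npos P) := by
  constructor
  · intro h
    rcases htot z with h1 | h1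
    · left
      rw [eq_pos_mul z]
      exact M.1.mul_mem h (M.1.inv_mem (hPM h1))
    · exact Or.inr h1
  · rintro (h | h)
    · exact (M.2.1 z h 1 M.1.one_mem).1
    · rw [mem_Npos, inv_inv] at h
      exact hPM h

/-- The convex `l`-subgroup generated by `P` and a positive element. -/
def adj (P : CS A) (b : A) (hb : 1 ≤ b) : CS A :=
  ⟨{ carrier := {x | ∃ p ∈ P.1, 1 ≤ p ∧ ∃ n : ℕ, x ≤ p * b ^ n ∧ x⁻¹ ≤ p * b ^ n}
     one_mem' := ⟨1, P.1.one_mem, le_rfl, 0, by simp, by simp⟩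
     mul_mem' := by
       rintro x y ⟨p, hp, hp1, n, h1, h2⟩ ⟨q, hq, hq1, m, h3, h4⟩
       refine ⟨p * q, P.1.mul_mem hp hq, one_le_mul hp1 hq1, n + m, ?_, ?_⟩
       · have := mul_le_mul' h1 h3
         rwa [mul_mul_mul_comm, ← pow_add] at this
       · have := mul_le_mul' h2 h4
         rwa [mul_mul_mul_comm, ← pow_add, ← mul_inv] at this
     inv_mem' := by
       rintro x ⟨p, hp, hp1, n, h1, h2⟩
       exact ⟨p, hp, hp1, n, h2, by simpa using h1⟩ }, by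
    have key : ∀ (p q : A) (n m : ℕ), 1 ≤ p → 1 ≤ q →
        p * b ^ n ≤ (p * q) * b ^ (n + m) ∧ q * b ^ m ≤ (p * q) * b ^ (n + m) := by
      intro p q n m hp hq
      constructor
      · exact mul_le_mul' (le_mul_of_one_le_right' hq)
          (pow_le_pow_right' hb (Nat.le_add_right _ _))
      · exact mul_le_mul' (le_mul_of_one_le_left' hp)
          (pow_le_pow_right' hb (Nat.le_add_left _ _))
    constructor
    · rintro x ⟨p, hp, hp1, n, h1, h2⟩ y ⟨q, hq, hq1, m, h3, h4⟩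
      obtain ⟨k1, k2⟩ := key p q n m hp1 hq1
      constructor
      · refine ⟨p * q, P.1.mul_mem hp hq, one_le_mul hp1 hq1, n + m,
          sup_le (h1.trans k1) (h3.trans k2), ?_⟩
        exact (inv_le_inv_iff.2 le_sup_left).trans (h2.trans k1)
      · refine ⟨p * q, P.1.mul_mem hp hq, one_le_mul hp1 hq1, n + m,
          inf_le_left.trans (h1.trans k1), ?_⟩
        rw [inv_inf]
        exact sup_le (h2.trans k1) (h4.trans k2)
    · rintro x ⟨p, hp, hp1, n, h1, h2⟩ y ⟨q, hq, hq1, m, h3, h4⟩ z hxz hzy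
      obtain ⟨k1, k2⟩ := key p q n m hp1 hq1
      exact ⟨p * q, P.1.mul_mem hp hq, one_le_mul hp1 hq1, n + m, hzy.trans (h3.trans k2),
        (inv_le_inv_iff.2 hxz).trans (h2.trans k1)⟩⟩

lemma le_adj (P : CS A) (b : A) (hb : 1 ≤ b) : P ≤ adj P b hb := by
  intro x hx
  exact ⟨x ⊔ x⁻¹, P.abs_mem hx, one_le_abs x, 0, by simp, by simp⟩

lemma mem_adj (P : CS A) (b : A) (hb : 1 ≤ b) : b ∈ (adj P b hb).1 :=
  ⟨1, P.1.one_mem, le_rfl, 1, by simp, by simpa using (inv_le_one'.2 hb).trans hb⟩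

end Comm

section Transfer

variable {G A : Type*} [Group G] [Lattice G] [MulLeftMono G] [MulRightMono G]
  [CommGroup A] [Lattice A] [MulLeftMono A] [MulRightMono A]

/-- A prime convex `l`-subgroup and its cover. -/
structure PrimePair (P M : CS G) : Prop where
  le : P ≤ M
  prime : ∀ g h : G, 1 ≤ g → 1 ≤ h → g ⊓ h = 1 → g ∈ P.1 ∨ h ∈ P.1
  arch : ∀ K : CS G, P ≤ K → (∃ g ∈ K.1, 1 ≤ g ∧ g ∉ P.1) → M ≤ K

variable (Ψ : CS G ≃o CS A)

lemma disj_transfer {g h : G} (hg : 1 ≤ g) (hh : 1 ≤ h) {x y : A} (hx : 1 ≤ x) (hy : 1 ≤ y)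
    (e1 : Ψ (pr g hg) = pr x hx) (e2 : Ψ (pr h hh) = pr y hy) (hxy : x ⊓ y = 1) :
    g ⊓ h = 1 := by
  have hk : 1 ≤ g ⊓ h := le_inf hg hh
  have h1 : Ψ (pr (g ⊓ h) hk) ≤ pr x hx := by
    rw [← e1, OrderIso.le_iff_le, pr_le_iff]
    exact (pr g hg).2.2 1 (Subgroup.one_mem _) g (self_mem_pr g hg) _ hk inf_le_left
  have h2 : Ψ (pr (g ⊓ h) hk) ≤ pr y hy := by
    rw [← e2, OrderIso.le_iff_le, pr_le_iff]
    exact (pr h hh).2.2 1 (Subgroup.one_mem _) h (self_mem_pr h hh) _ hk inf_le_right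
  have h3 : Ψ (pr (g ⊓ h) hk) ≤ Ψ (pr 1 le_rfl) := by
    intro c hc
    obtain ⟨n, hn1, hn2⟩ := h1 hc
    obtain ⟨m, hm1, hm2⟩ := h2 hc
    have h4 : c ⊔ c⁻¹ ≤ 1 := by
      rw [← disj_pow_pow hx hy hxy n m]
      exact le_inf (sup_le hn1 hn2) (sup_le hm1 hm2)
    have h5 : c = 1 := by
      apply le_antisymm
      · exact le_sup_left.trans h4
      · have : c⁻¹ ≤ 1 := le_sup_right.trans h4
        exact inv_le_one'.1 this
    rw [h5]
    exact Subgroup.one_mem _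
  rw [OrderIso.le_iff_le, pr_le_iff] at h3
  obtain ⟨n, hn, -⟩ := h3
  rw [one_pow] at hn
  exact le_antisymm hn hk

variable {P M : CS G} (hPM : PrimePair P M)

include hPM

lemma tot_transfer (x : A) : x ∈ Npos (Ψ P) ∨ x⁻¹ ∈ Npos (Ψ P) := by
  obtain ⟨g, hg, e1⟩ := exists_pr Ψ (x ⊔ 1) le_sup_right
  obtain ⟨h, hh, e2⟩ := exists_pr Ψ (x⁻¹ ⊔ 1) le_sup_right
  have h1 := disj_transfer Ψ hg hh le_sup_right le_sup_right e1 e2 (pos_inf_neg x)
  rcases hPM.prime g h hg hh h1 with h2 | h2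
  · right
    rw [mem_Npos, inv_inv, mem_iff_of_pr e1]
    exact h2
  · left
    rw [mem_Npos, mem_iff_of_pr e2]
    exact h2

theorem holData_transfer {b : G} (hb : 1 ≤ b) (hbM : b ∈ M.1) (hbP : b ∉ P.1) {b' : A}
    (hb' : 1 ≤ b') (e : Ψ (pr b hb) = pr b' hb') : HolData (Npos (Ψ P)) (Ψ M).1 b' where
  tot := tot_transfer Ψ hPM
  b_mem := Npos_of_one_le hb'
  b_not := by
    rw [mem_Npos, inv_inv, sup_eq_left.2 hb', mem_iff_of_pr e]
    exact hbP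
  b_M := (mem_iff_of_pr e M).2 hbM
  arch := by
    intro x hx
    have h1 : M ≤ Ψ.symm (adj (Ψ P) b' hb') := by
      apply hPM.arch
      · rw [OrderIso.le_symm_apply]
        exact le_adj _ _ _
      · refine ⟨b, ?_, hb, hbP⟩
        rw [← mem_iff_of_pr e, OrderIso.apply_symm_apply]
        exact mem_adj _ _ _
    rw [OrderIso.le_symm_apply] at h1
    obtain ⟨p, hp, hp1, n, -, h2⟩ := h1 hx
    refine ⟨n, ?_⟩
    rw [mem_Npos]
    refine (Ψ P).2.2 1 (Subgroup.one_mem _) p hp _ le_sup_right (sup_le ?_ hp1)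
    rw [mul_inv]
    exact mul_inv_le_iff_le_mul.2 h2

omit hPM in
/-- Every element of `A` has a gauge in `G`. -/
theorem gauge_transfer (z : A) : ∃ g : G, 1 ≤ g ∧ ∀ P M : CS G, PrimePair P M →
    (z⁻¹ ∈ Npos (Ψ P) ↔ g ∈ P.1) ∧
    ((z ∈ (Ψ M).1 ∨ z⁻¹ ∈ Npos (Ψ P)) ↔ g ∈ M.1) := by
  obtain ⟨g, hg, e⟩ := exists_pr Ψ (z ⊔ 1) le_sup_right
  refine ⟨g, hg, fun P M hPM => ⟨?_, ?_⟩⟩
  · rw [mem_Npos, inv_inv, mem_iff_of_pr e]
  · rw [← sup_one_mem_iff (Ψ.monotone hPM.le) (tot_transfer Ψ hPM), mem_iff_of_pr e]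

end Transfer

end Pool.Agent.Helper455.NV
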