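import Pool.Agent.Helper455.NV.Good
import Pool.Agent.Helper455.NV.Points

/-!
The prime convex `l`-subgroups of the group of good functions given by evaluation at a family.
-/

namespace Pool.Agent.Helper455.NV

open H

variable {L : Type}

lemma H.zero_T_pow {x : H} (hx : x.T = 0) (n : ℕ) : (x ^ n).T = 0 ∧ ∀ k, (x ^ n).B k = n * x.B k := by
  induction n with
  | zero => simp
  | succ n ih =>
    obtain ⟨h1, h2⟩ := ih
    rw [pow_succ]
    refine ⟨by rw [mul_T, h1, hx, add_zero], fun k => ?_⟩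
    rw [mul_B, hx, add_zero, h2 k]
    push_cast
    ring

lemma H.inf_eq (x y : H) : x ⊓ y = (x⁻¹ ⊔ y⁻¹)⁻¹ := by
  rw [inv_sup, inv_inv, inv_inv]

lemma H.P0_mul {x y : H} (hx : P0 x) (hy : P0 y) : P0 (x * y) := by
  obtain ⟨h1, h2⟩ := hx
  obtain ⟨h3, h4⟩ := hy
  refine ⟨by rw [mul_T, h1, h3, add_zero], ?_⟩
  rw [mul_B, h3, add_zero, h2, h4, add_zero]

lemma H.P0_inv {x : H} (hx : P0 x) : P0 x⁻¹ := by
  obtain ⟨h1, h2⟩ := hx
  refine ⟨by rw [inv_T, h1, neg_zero], ?_⟩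
  rw [inv_B, h1, sub_zero, h2, neg_zero]

lemma H.P0_sup {x y : H} (hx : P0 x) (hy : P0 y) : P0 (x ⊔ y) := by
  obtain ⟨h1, h2⟩ := hx
  obtain ⟨h3, h4⟩ := hy
  refine ⟨by rw [sup_T, h1, h3, max_self], ?_⟩
  rw [sup_B_of_eq (by rw [h1, h3]), h2, h4, max_self]

lemma H.P0_inf {x y : H} (hx : P0 x) (hy : P0 y) : P0 (x ⊓ y) := by
  rw [H.inf_eq]
  exact H.P0_inv (H.P0_sup (H.P0_inv hx) (H.P0_inv hy))

lemma H.P0_conv {x y z : H} (hx : P0 x) (hy : P0 y) (h1 : x ≤ z) (h2 : z ≤ y) : P0 z := by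
  obtain ⟨hx1, hx2⟩ := hx
  obtain ⟨hy1, hy2⟩ := hy
  rw [H.le_def] at h1 h2
  rw [hx1] at h1
  rw [hy1] at h2
  have hz : z.T = 0 := by
    apply le_antisymm
    · rcases h2 with h | ⟨h, -⟩
      · exact h.le
      · exact h.le
    · rcases h1 with h | ⟨h, -⟩
      · exact h.le
      · exact h.le
  refine ⟨hz, ?_⟩
  rw [hz] at h1 h2
  apply le_antisymm
  · rcases h2 with h | ⟨-, h⟩
    · exact absurd h (lt_irrefl _)
    · rw [← hy2]
      exact h 0
  · rcases h1 with h | ⟨-, h⟩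
    · exact absurd h (lt_irrefl _)
    · rw [← hx2]
      exact h 0

lemma H.T_conv {x y z : H} (hx : x.T = 0) (hy : y.T = 0) (h1 : x ≤ z) (h2 : z ≤ y) :
    z.T = 0 := by
  rw [H.le_def] at h1 h2
  rw [hx] at h1
  rw [hy] at h2
  apply le_antisymm
  · rcases h2 with h | ⟨h, -⟩
    · exact h.le
    · exact h.le
  · rcases h1 with h | ⟨h, -⟩
    · exact h.le
    · exact h.le

/-- The prime at a family. -/
def Pt (θ : L → H) : CS (GG L) :=
  ⟨{ carrier := {g | P0 (g.1 θ)}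
     one_mem' := ⟨rfl, rfl⟩
     mul_mem' := fun h1 h2 => H.P0_mul h1 h2
     inv_mem' := fun h => H.P0_inv h },
   fun _ hx _ hy => ⟨H.P0_sup hx hy, H.P0_inf hx hy⟩,
   fun _ hx _ hy _ h1 h2 => H.P0_conv hx hy (h1 θ) (h2 θ)⟩

/-- The cover of the prime at a family. -/
def Mt (θ : L → H) : CS (GG L) :=
  ⟨{ carrier := {g | (g.1 θ).T = 0}
     one_mem' := rfl
     mul_mem' := by
       intro x y hx hy
       show (x.1 θ * y.1 θ).T = 0
       have hx' : (x.1 θ).T = 0 := hx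
       have hy' : (y.1 θ).T = 0 := hy
       rw [mul_T, hx', hy', add_zero]
     inv_mem' := by
       intro x hx
       show ((x.1 θ)⁻¹).T = 0
       have hx' : (x.1 θ).T = 0 := hx
       rw [inv_T, hx', neg_zero] },
   by
     intro x hx y hy
     have hx' : (x.1 θ).T = 0 := hx
     have hy' : (y.1 θ).T = 0 := hy
     constructor
     · show (x.1 θ ⊔ y.1 θ).T = 0
       rw [sup_T, hx', hy', max_self]
     · show (x.1 θ ⊓ y.1 θ).T = 0
       rw [H.inf_eq, inv_T, sup_T, inv_T, inv_T, hx', hy', neg_zero, max_self, neg_zero],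
   fun _ hx _ hy _ h1 h2 => H.T_conv hx hy (h1 θ) (h2 θ)⟩

lemma mem_Pt {θ : L → H} {g : GG L} : g ∈ (Pt θ).1 ↔ P0 (g.1 θ) := Iff.rfl
lemma mem_Mt {θ : L → H} {g : GG L} : g ∈ (Mt θ).1 ↔ (g.1 θ).T = 0 := Iff.rfl

lemma one_T_nonneg {x : H} (h : 1 ≤ x) : 0 ≤ x.T := by
  rcases H.one_le_iff.1 h with h | ⟨h, -⟩
  · exact h.le
  · exact h.ge

/-- `arch` for positive elements. -/
lemma arch_aux {x g : H} (hx : x.T = 0) (hx1 : 1 ≤ x) (hg : 1 ≤ g) (hg' : ¬ P0 g) :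
    ∃ n : ℕ, P0 ((x * (g ^ n)⁻¹) ⊔ 1) := by
  by_cases hgT : g.T = 0
  · have hgB : 1 ≤ g.B 0 := by
      rcases H.one_le_iff.1 hg with h | ⟨-, h⟩
      · exact absurd hgT h.ne'
      · rcases (h 0).lt_or_eq with h1 | h1
        · exact h1
        · exact absurd ⟨hgT, h1.symm⟩ hg'
    refine ⟨(x.B 0).toNat, ?_⟩
    have hxB : 0 ≤ x.B 0 := by
      rcases H.one_le_iff.1 hx1 with h | ⟨-, h⟩
      · exact absurd hx h.ne'
      · exact h 0
    obtain ⟨h1, h2⟩ := H.zero_T_pow hgT (x.B 0).toNat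
    have hT : (x * (g ^ (x.B 0).toNat)⁻¹).T = 0 := by
      rw [mul_T, inv_T, h1, hx, neg_zero, add_zero]
    constructor
    · rw [sup_T, hT, one_T, max_self]
    · rw [sup_B_of_eq (by rw [hT, one_T]), mul_B, inv_T, inv_B, h1, neg_zero, add_zero, sub_zero,
        h2, one_B, Int.toNat_of_nonneg hxB]
      apply max_eq_right
      nlinarith
  · have hgT' : 0 < g.T := lt_of_le_of_ne (one_T_nonneg hg) (Ne.symm hgT)
    refine ⟨1, ?_⟩
    have : (x * (g ^ 1)⁻¹) ⊔ 1 = 1 := by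
      apply sup_eq_right.2
      rw [pow_one]
      apply Or.inl
      rw [mul_T, inv_T, hx, one_T]
      linarith
    rw [this]
    exact ⟨rfl, rfl⟩

theorem primePair (θ : L → H) : PrimePair (Pt θ) (Mt θ) where
  le := fun _ h => h.1
  prime := by
    intro g h hg hh e
    have e' : g.1 θ ⊓ h.1 θ = 1 := by
      rw [← GG_inf_apply, e, GG_one_apply]
    have hg1 : 1 ≤ g.1 θ := hg θ
    have hh1 : 1 ≤ h.1 θ := hh θ
    rw [mem_Pt, mem_Pt]
    have hgT := one_T_nonneg hg1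
    have hhT := one_T_nonneg hh1
    rw [inf_def] at e'
    split_ifs at e' with h1 h2
    · rw [e']
      exact Or.inl ⟨rfl, rfl⟩
    · rw [e']
      exact Or.inr ⟨rfl, rfl⟩
    · have hT : (g.1 θ).T = 0 := by
        have := congrArg H.T e'
        simpa using this
      have hT' : (h.1 θ).T = 0 := by
        rw [← hT]
        exact le_antisymm (not_lt.1 h1) (not_lt.1 h2)
      have hB : min ((g.1 θ).B 0) ((h.1 θ).B 0) = 0 := by
        have := congrFun (congrArg H.B e') 0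
        simpa using this
      rcases le_total ((g.1 θ).B 0) ((h.1 θ).B 0) with h3 | h3
      · rw [min_eq_left h3] at hB
        exact Or.inl ⟨hT, hB⟩
      · rw [min_eq_right h3] at hB
        exact Or.inr ⟨hT', hB⟩
  arch := by
    rintro K hK ⟨g, hgK, hg1, hgP⟩ h hh
    apply CS.mem_of_abs
    have hM : h ⊔ h⁻¹ ∈ (Mt θ).1 := CS.abs_mem _ hh
    have h1 : (1 : GG L) ≤ h ⊔ h⁻¹ := one_le_abs h
    generalize h ⊔ h⁻¹ = x at hM h1
    obtain ⟨n, hn⟩ := arch_aux (mem_Mt.1 hM) (h1 θ) (hg1 θ) hgP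
    have hu : (x * (g ^ n)⁻¹) ⊔ 1 ∈ K.1 := by
      apply hK
      rw [mem_Pt]
      exact hn
    have hle : x ≤ ((x * (g ^ n)⁻¹) ⊔ 1) * g ^ n := by
      have : (x * (g ^ n)⁻¹) * g ^ n ≤ ((x * (g ^ n)⁻¹) ⊔ 1) * g ^ n :=
        mul_le_mul_left le_sup_left _
      simpa using this
    exact K.2.2 1 K.1.one_mem _ (K.1.mul_mem hu (K.1.pow_mem hgK n)) x h1 hle

lemma bG_mem (θ : L → H) : (bG : GG L) ∈ (Mt θ).1 := rfl

lemma bG_not_mem (θ : L → H) : (bG : GG L) ∉ (Pt θ).1 := by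
  intro h
  have h1 : bH.B 0 = 0 := h.2
  simp [bH] at h1

lemma coord_abs_mem (θ : L → H) (l : L) :
    coord l ⊔ (coord l)⁻¹ ∈ (Mt θ).1 ↔ (θ l).T = 0 := by
  rw [mem_Mt]
  have : (coord l ⊔ (coord l)⁻¹).1 θ = θ l ⊔ (θ l)⁻¹ := rfl
  rw [this, sup_T, inv_T]
  constructor
  · intro h
    have h1 := le_max_left (θ l).T (-(θ l).T)
    have h2 := le_max_right (θ l).T (-(θ l).T)
    linarith
  · intro h
    rw [h, neg_zero, max_self]

end Pool.Agent.Helper455.NV
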